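import Pool.Agent.R421.Z12.Par
import Pool.Agent.R421.Z8.Fin

/-!
# Project Z12: the curves with a point of order twelve, by height
-/

set_option autoImplicit false
set_option linter.all false

namespace Pool.Agent.R421.Z12

open Finset Filter WeierstrassCurve Pool.Agent.W262.RK Pool.Agent.W307.RT Pool.Agent.R421.HF
open Pool.Agent.W29.RT (nons neg_y)
open Pool.Agent.R421.Z8 (cop_eq)

/-- a point of order 3 -/
theorem pt3 {A B s t e : ℤ} (h : Rel4 A B s t e) {X Y L : ℤ} (hY : Y ≠ 0)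
    (h1 : Y ^ 2 = X * (X ^ 2 + (s ^ 2 - 2 * t) * X + t ^ 2))
    (h2 : L ^ 2 = s ^ 2 - 2 * t + 3 * X)
    (h3 : 3 * X ^ 2 + 2 * (s ^ 2 - 2 * t) * X + t ^ 2 = 2 * Y * L) :
    ∃ P : (Sh A B).toAffine.Point, addOrderOf P = 3 := by
  have he : 3 * (e : ℚ) = s ^ 2 - 2 * t := by exact_mod_cast h.he
  have hA : (A : ℚ) = t ^ 2 - 3 * e ^ 2 := by exact_mod_cast h.hA
  have hB : (B : ℚ) = 2 * e ^ 3 - t ^ 2 * e := by exact_mod_cast h.hB
  have hYq : (Y : ℚ) ≠ 0 := by exact_mod_cast hY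
  have h1q : (Y : ℚ) ^ 2 = X * (X ^ 2 + (s ^ 2 - 2 * t) * X + t ^ 2) := by exact_mod_cast h1
  have h2q : (L : ℚ) ^ 2 = s ^ 2 - 2 * t + 3 * X := by exact_mod_cast h2
  have h3q : 3 * (X : ℚ) ^ 2 + 2 * (s ^ 2 - 2 * t) * X + t ^ 2 = 2 * Y * L := by exact_mod_cast h3
  have hP : (Sh A B).toAffine.Nonsingular ((e : ℚ) + X) (Y : ℚ) := by
    apply nons _ (Or.inl hYq)
    rw [hA, hB, h1q]
    linear_combination (-(X : ℚ) ^ 2) * he
  set P : (Sh A B).toAffine.Point := .some _ _ hP with hPd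
  have hPP : P + P = -P := by
    have hne : (Y : ℚ) ≠ (Sh A B).toAffine.negY ((e : ℚ) + X) (Y : ℚ) := by
      rw [neg_y]
      intro h0
      apply hYq
      linarith
    have hsl : (Sh A B).toAffine.slope ((e : ℚ) + X) ((e : ℚ) + X) (Y : ℚ) (Y : ℚ) = L := by
      rw [Affine.slope_of_Y_ne rfl hne, neg_y]
      simp only [Sh]
      rw [div_eq_iff (by intro h0; apply hYq; linarith), hA]
      linear_combination (2 * (X : ℚ)) * he + h3q
    rw [hPd, Affine.Point.neg_some, Affine.Point.add_self_of_Y_ne hne, Affine.Point.some.injEq, hsl]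
    constructor
    · simp only [Affine.addX, Sh]
      linear_combination h2q - he
    · simp only [Affine.addY, Affine.negAddY, Affine.negY, Affine.addX, Sh]
      linear_combination (-(L : ℚ)) * h2q + (L : ℚ) * he
  refine ⟨P, ?_⟩
  apply addOrderOf_eq_prime
  · have : (3 : ℕ) • P = P + P + P := by
      rw [show (3 : ℕ) = 2 + 1 from rfl, add_nsmul, two_nsmul, one_nsmul]
    rw [this, hPP, neg_add_cancel]
  · exact Affine.Point.some_ne_zero hP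

/-- a point of order 12 -/
theorem pt12 {A B s t e : ℤ} (h : Rel4 A B s t e)
    (h3 : ∃ P : (Sh A B).toAffine.Point, addOrderOf P = 3) :
    ∃ P : (Sh A B).toAffine.Point, addOrderOf P = 12 := by
  obtain ⟨h1, h2, -, -, h4⟩ := h.pt4
  obtain ⟨R, hR⟩ := h3
  refine ⟨Affine.Point.some _ _ h2 + R, ?_⟩
  rw [(AddCommute.all _ _).addOrderOf_add_eq_mul_addOrderOf_of_coprime (by rw [h4, hR]; norm_num),
    h4, hR]

/-- monotonicity -/
lemma mono_lt {x y x' y' : ℤ} (hx : 0 < x) (hxy : x < y) (hx' : 0 < x') (hxy' : x' < y')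
    (h : y * x' < y' * x) :
    (y - x) ^ 3 * (y + 3 * x) * (x' ^ 3 * y') < (y' - x') ^ 3 * (y' + 3 * x') * (x ^ 3 * y) := by
  have hy : 0 < y := hx.trans hxy
  have hy' : 0 < y' := hx'.trans hxy'
  have e1 : (y - x) * x' < (y' - x') * x := by linarith
  have e2 : (y + 3 * x) * x' < (y' + 3 * x') * x := by linarith
  have e3 : (y - x) * y' < (y' - x') * y := by linarith
  have p1 : 0 < (y - x) * x' := mul_pos (by linarith) hx'
  have p2 : 0 < (y + 3 * x) * x' := by positivity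
  have p3 : 0 < (y - x) * y' := mul_pos (by linarith) hy'
  have a1 : ((y - x) * x') ^ 2 < ((y' - x') * x) ^ 2 := pow_lt_pow_left₀ e1 p1.le two_ne_zero
  have a2 : ((y - x) * x') ^ 2 * ((y + 3 * x) * x') < ((y' - x') * x) ^ 2 * ((y' + 3 * x') * x) :=
    mul_lt_mul'' a1 e2 (by positivity) p2.le
  have a3 : ((y - x) * x') ^ 2 * ((y + 3 * x) * x') * ((y - x) * y') <
      ((y' - x') * x) ^ 2 * ((y' + 3 * x') * x) * ((y' - x') * y) :=
    mul_lt_mul'' a2 e3 (by positivity) p3.le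
  calc (y - x) ^ 3 * (y + 3 * x) * (x' ^ 3 * y') =
      ((y - x) * x') ^ 2 * ((y + 3 * x) * x') * ((y - x) * y') := by ring
    _ < ((y' - x') * x) ^ 2 * ((y' + 3 * x') * x) * ((y' - x') * y) := a3
    _ = _ := by ring

lemma mono_eq {x y x' y' : ℤ} (hx : 0 < x) (hxy : x < y) (hx' : 0 < x') (hxy' : x' < y')
    (h : (y - x) ^ 3 * (y + 3 * x) * (x' ^ 3 * y') =
      (y' - x') ^ 3 * (y' + 3 * x') * (x ^ 3 * y)) : y * x' = y' * x := by
  rcases lt_trichotomy (y * x') (y' * x) with h1 | h1 | h1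
  · exact absurd h (mono_lt hx hxy hx' hxy' h1).ne
  · exact h1
  · exact absurd h (mono_lt hx' hxy' hx hxy h1).ne'

/-- `N` for `m = b`, `n = a + b` -/
def Nf (a b : ℕ) : ℤ :=
  (((a : ℤ) + b) ^ 2 - (b : ℤ) ^ 2) ^ 3 * (((a : ℤ) + b) ^ 2 + 3 * (b : ℤ) ^ 2)

theorem low12 : ∃ (c : ℝ) (C T0 : ℕ), 0 < c ∧ ∀ K H : ℕ, T0 ≤ K → C * K ^ 48 ≤ H →
    c * K ^ 2 ≤ ((CvN 12 H).card : ℝ) := by
  refine low_of (N := 12) (k := 48) (fun a b => 24 * (b : ℤ) ^ 3 * (a + b))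
    (fun a b => 9 * Nf a b)
    (fun a b => 192 * (b : ℤ) ^ 6 * (a + b) ^ 2 - 6 * Nf a b) (fun K => 4032 * (K : ℤ) ^ 8)
    (256 * 4032 ^ 6) ?_ ?_ ?_ ?_
  · intro a b hb hab hc
    have hb' : (1 : ℤ) ≤ b := by exact_mod_cast hb
    have hab' : (b : ℤ) < a := by exact_mod_cast hab
    obtain ⟨m, hm⟩ : ∃ m : ℤ, m = b := ⟨_, rfl⟩
    obtain ⟨n, hn⟩ : ∃ n : ℤ, n = (a : ℤ) + b := ⟨_, rfl⟩
    have hNf : Nf a b = (n ^ 2 - m ^ 2) ^ 3 * (n ^ 2 + 3 * m ^ 2) := by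
      unfold Nf
      rw [hm, hn]
    have hm0 : 0 < m := by rw [hm]; linarith
    have hmn : 2 * m < n := by rw [hm, hn]; linarith
    have hn0 : 0 < n := by linarith
    have hd : 0 < n ^ 2 - m ^ 2 := by nlinarith
    have hS : 24 * (b : ℤ) ^ 3 * (a + b) = 24 * m ^ 3 * n := by rw [hm, hn]
    have hE : 192 * (b : ℤ) ^ 6 * (a + b) ^ 2 = 192 * m ^ 6 * n ^ 2 := by rw [hm, hn]
    have hlt : 16 * m ^ 6 * n ^ 2 < (n ^ 2 - m ^ 2) ^ 3 * (n ^ 2 + 3 * m ^ 2) := by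
      have : (n ^ 2 - m ^ 2) ^ 3 * (n ^ 2 + 3 * m ^ 2) - 16 * m ^ 6 * n ^ 2 =
          (n ^ 2 - 3 * m ^ 2) * (n ^ 2 + m ^ 2) ^ 3 := by ring
      have h3 : 0 < n ^ 2 - 3 * m ^ 2 := by nlinarith
      have h4 : 0 < (n ^ 2 - 3 * m ^ 2) * (n ^ 2 + m ^ 2) ^ 3 := by positivity
      linarith
    rw [hS, hE, hNf]
    refine ⟨by positivity, by positivity, ?_, by ring, ?_⟩
    · calc (24 * m ^ 3 * n) ^ 2 = 36 * (16 * m ^ 6 * n ^ 2) := by ring
        _ < 36 * ((n ^ 2 - m ^ 2) ^ 3 * (n ^ 2 + 3 * m ^ 2)) := by linarith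
        _ = _ := by ring
    · intro A B hR
      refine pt12 hR (pt3 hR (X := 9 * (n ^ 2 - m ^ 2) ^ 4)
        (Y := 108 * (n ^ 2 - m ^ 2) ^ 4 * m ^ 2 * (n ^ 2 + m ^ 2))
        (L := 3 * (3 * m ^ 4 + 6 * m ^ 2 * n ^ 2 - n ^ 4)) (by positivity) ?_ ?_ ?_)
      · ring
      · ring
      · ring
  · intro a b a' b' hb hab hc hb' hab' hc' u u' hu hu' h1 h2
    apply cop_eq hc hc' hb
    have hbz : (1 : ℤ) ≤ b := by exact_mod_cast hb
    have haz : (0 : ℤ) < a := by exact_mod_cast (by omega : 0 < a)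
    have hbz' : (1 : ℤ) ≤ b' := by exact_mod_cast hb'
    have haz' : (0 : ℤ) < a' := by exact_mod_cast (by omega : 0 < a')
    obtain ⟨m, hm⟩ : ∃ m : ℤ, m = b := ⟨_, rfl⟩
    obtain ⟨n, hn⟩ : ∃ n : ℤ, n = (a : ℤ) + b := ⟨_, rfl⟩
    obtain ⟨m', hm'⟩ : ∃ m : ℤ, m = b' := ⟨_, rfl⟩
    obtain ⟨n', hn'⟩ : ∃ n : ℤ, n = (a' : ℤ) + b' := ⟨_, rfl⟩
    have hNf : Nf a b = (n ^ 2 - m ^ 2) ^ 3 * (n ^ 2 + 3 * m ^ 2) := by
      unfold Nf
      rw [hm, hn]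
    have hNf' : Nf a' b' = (n' ^ 2 - m' ^ 2) ^ 3 * (n' ^ 2 + 3 * m' ^ 2) := by
      unfold Nf
      rw [hm', hn']
    rw [hNf, hNf'] at h2
    have h1' : u' * (24 * m ^ 3 * n) = u * (24 * m' ^ 3 * n') := by rw [hm, hn, hm', hn']; exact h1
    have hm0 : 0 < m := by rw [hm]; linarith
    have hmn : m < n := by rw [hm, hn]; linarith
    have hm0' : 0 < m' := by rw [hm']; linarith
    have hmn' : m' < n' := by rw [hm', hn']; linarith
    have hn0 : 0 < n := hm0.trans hmn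
    have hn0' : 0 < n' := hm0'.trans hmn'
    have e1 : (u ^ 2 * u' ^ 2 * 5184) *
        ((n ^ 2 - m ^ 2) ^ 3 * (n ^ 2 + 3 * m ^ 2) * ((m' ^ 2) ^ 3 * n' ^ 2)) =
        (u ^ 2 * u' ^ 2 * 5184) *
        ((n' ^ 2 - m' ^ 2) ^ 3 * (n' ^ 2 + 3 * m' ^ 2) * ((m ^ 2) ^ 3 * n ^ 2)) := by
      calc (u ^ 2 * u' ^ 2 * 5184) *
          ((n ^ 2 - m ^ 2) ^ 3 * (n ^ 2 + 3 * m ^ 2) * ((m' ^ 2) ^ 3 * n' ^ 2)) =
          (u' ^ 2 * (9 * ((n ^ 2 - m ^ 2) ^ 3 * (n ^ 2 + 3 * m ^ 2)))) *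
            (u * (24 * m' ^ 3 * n')) ^ 2 := by ring
        _ = (u ^ 2 * (9 * ((n' ^ 2 - m' ^ 2) ^ 3 * (n' ^ 2 + 3 * m' ^ 2)))) *
            (u' * (24 * m ^ 3 * n)) ^ 2 := by rw [h2, h1']
        _ = _ := by ring
    have e2 := mul_left_cancel₀ (by positivity) e1
    have e3 := mono_eq (by positivity : 0 < m ^ 2) (pow_lt_pow_left₀ hmn hm0.le two_ne_zero)
      (by positivity : 0 < m' ^ 2) (pow_lt_pow_left₀ hmn' hm0'.le two_ne_zero) e2
    have e4 : (n * m') ^ 2 = (n' * m) ^ 2 := by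
      rw [mul_pow, mul_pow]
      exact e3
    have e5 := (pow_left_inj₀ (by positivity) (by positivity) two_ne_zero).1 e4
    rw [hm, hn, hm', hn'] at e5
    have e7 : (b : ℤ) * a' = b' * a := by linarith
    exact_mod_cast e7
  · intro a b K hb hab haK
    have haK' : (a : ℤ) ≤ K := by exact_mod_cast haK
    have hbK' : (b : ℤ) ≤ K := by exact_mod_cast (by omega : b ≤ K)
    have ha0 : (0 : ℤ) ≤ a := Int.natCast_nonneg a
    have hb0 : (0 : ℤ) ≤ b := Int.natCast_nonneg b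
    have hK0 : (0 : ℤ) ≤ K := Int.natCast_nonneg K
    have hn : ((a : ℤ) + b) ≤ 2 * K := by linarith
    have hn2 : ((a : ℤ) + b) ^ 2 ≤ 4 * (K : ℤ) ^ 2 := by
      calc ((a : ℤ) + b) ^ 2 ≤ (2 * K) ^ 2 := pow_le_pow_left₀ (by linarith) hn 2
        _ = _ := by ring
    have hb2 : (b : ℤ) ^ 2 ≤ (K : ℤ) ^ 2 := pow_le_pow_left₀ hb0 hbK' 2
    have hd0 : 0 ≤ ((a : ℤ) + b) ^ 2 - (b : ℤ) ^ 2 := by nlinarith
    have hd1 : ((a : ℤ) + b) ^ 2 - (b : ℤ) ^ 2 ≤ 4 * (K : ℤ) ^ 2 := by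
      have := sq_nonneg (b : ℤ)
      linarith
    have hN0 : 0 ≤ Nf a b := by
      unfold Nf
      positivity
    have hN1 : Nf a b ≤ 448 * (K : ℤ) ^ 8 := by
      unfold Nf
      calc (((a : ℤ) + b) ^ 2 - (b : ℤ) ^ 2) ^ 3 * (((a : ℤ) + b) ^ 2 + 3 * (b : ℤ) ^ 2) ≤
          (4 * (K : ℤ) ^ 2) ^ 3 * (7 * (K : ℤ) ^ 2) :=
            mul_le_mul (pow_le_pow_left₀ hd0 hd1 3) (by linarith) (by positivity) (by positivity)
        _ = _ := by ring
    have hE1 : 192 * (b : ℤ) ^ 6 * (a + b) ^ 2 ≤ 768 * (K : ℤ) ^ 8 := by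
      calc 192 * (b : ℤ) ^ 6 * (a + b) ^ 2 ≤ 192 * (K : ℤ) ^ 6 * (4 * (K : ℤ) ^ 2) :=
            mul_le_mul (mul_le_mul_of_nonneg_left (pow_le_pow_left₀ hb0 hbK' 6) (by norm_num)) hn2
              (by positivity) (by positivity)
        _ = _ := by ring
    have hE0 : 0 ≤ 192 * (b : ℤ) ^ 6 * (a + b) ^ 2 := by positivity
    have h8 : (0 : ℤ) ≤ (K : ℤ) ^ 8 := by positivity
    constructor
    · rw [abs_of_nonneg (by positivity)]
      linarith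
    · rw [abs_le]
      constructor <;> linarith
  · intro K
    push_cast
    exact le_of_eq (by ring)

/-- **Main theorem.** -/
theorem main12 : ∃ α : ℝ, 0 < α ∧ ∃ C : ℝ, ∀ H : ℕ,
    ∑ c ∈ CvN 12 H, ((2 : ℝ) ^ Module.finrank ℤ (Sh c.1 c.2).toAffine.Point) ^ α ≤
      C * (CvN 12 H).card := by
  classical
  obtain ⟨α, hα, -, C, hC, hbox⟩ := avg7
  refine ⟨α, hα, ?_⟩
  apply final_gen (k := 48) (e := 2) (by norm_num) (fun H => CvN 12 H) _
    (fun t : ℤ × ℤ => ((2 : ℝ) ^ Module.finrank ℤ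
        (EAB (-(4 * t.1 ^ 3 * t.2) ^ 2)
        (-((t.2 ^ 2 - t.1 ^ 2) ^ 3 * (t.2 ^ 2 + 3 * t.1 ^ 2)))).toAffine.Point) ^ α)
    (fun t n => t ∈ Box n ∧ IsCoprime t.1 t.2 ∧ ∀ j, F7 t.1 t.2 j ≠ 0)
  · intro t n T h hn
    refine ⟨?_, h.2⟩
    have := h.1
    rw [mem_Box] at this ⊢
    exact ⟨this.1.trans hn, this.2.trans hn⟩
  · refine ⟨10 ^ 26, F12p, fun H => ⟨?_, ?_⟩⟩
    · intro c hc c' hc' hcc
      rw [Finset.mem_coe] at hc hc'
      simp only [CvN, Finset.mem_filter] at hc hc'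
      obtain ⟨-, hD, -, -, hmin, hT⟩ := hc
      obtain ⟨-, hD', -, -, hmin', hT'⟩ := hc'
      have r := F12p_rel (core12 hD hT)
      have r' := F12p_rel (core12 hD' hT')
      change Rel12 c (F12p c) at r
      change Rel12 c' (F12p c') at r'
      rw [← hcc] at r'
      exact rel12_unique r r' hmin hmin'
    · intro c hc
      simp only [CvN, Finset.mem_filter] at hc
      obtain ⟨-, hD, hH, hH', hmin, hT⟩ := hc
      have r := F12p_rel (core12 hD hT)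
      change Rel12 c (F12p c) at r
      obtain ⟨hb1, hb2⟩ := rel12_bound (A := c.1) (B := c.2) r hH hH'
      have hrk := rel12_rank (A := c.1) (B := c.2) r
      refine ⟨max (F12p c).1.natAbs (F12p c).2.natAbs, ⟨?_, ?_⟩, ?_, ?_⟩
      · rw [mem_Box]
        exact ⟨le_max_left _ _, le_max_right _ _⟩
      · obtain ⟨s, t, e, -, h1, h2, -⟩ := r
        exact ⟨h1, h2⟩
      · rcases max_choice (F12p c).1.natAbs (F12p c).2.natAbs with h | h <;> rw [h]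
        · exact hb1
        · exact hb2
      · apply Real.rpow_le_rpow (by positivity) _ hα.le
        exact pow_le_pow_right₀ (by norm_num) hrk
  · exact low12
  · refine ⟨C, hC, fun T hT S hS => ?_⟩
    exact hbox T hT S (fun t ht => (hS t ht).1) (fun t ht => (hS t ht).2)

end Pool.Agent.R421.Z12
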