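import Pool.Agent.R421.Z12.Frm

/-!
# Project Z12 (helper421): the local conditions, the average over the box
-/

set_option autoImplicit false
set_option linter.all false

namespace Pool.Agent.R421.Z12

open Finset Pool.Agent.W262.RK Pool.Agent.W307.RT Pool.Agent.TH841.PT Pool.Agent.R421.HF
open Pool.Agent.R421.UR
open Pool.Agent.W571.RT (jac_sq)
open Pool.Agent.Y474.Z8 (sg0_one val_one)

lemma diff7 (a b : ℤ) : -(4 * a ^ 3 * b) ^ 2 - -((b ^ 2 - a ^ 2) ^ 3 * (b ^ 2 + 3 * a ^ 2)) =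
    (b ^ 2 - 3 * a ^ 2) * (b ^ 2 + a ^ 2) ^ 3 := by ring

lemma jac_cong {p : ℕ} {x y : ℤ} (h : (p : ℤ) ∣ x - y) : jacobiSym x p = jacobiSym y p := by
  apply jacobiSym.mod_left'
  have h1 : y ≡ x [ZMOD (p : ℤ)] := Int.modEq_iff_dvd.2 h
  exact h1.symm

/-- the constants -/
lemma loc7 {a b : ℤ} (hab : IsCoprime a b) (h0 : ∀ j, F7 a b j ≠ 0) {p : ℕ} (hp : p.Prime)
    (h7 : 7 < p) (j : Fin 7) (θ : Ty) (h : (p : ℤ) ∣ F7 a b j)
    (h' : ¬ (p : ℤ) ^ 2 ∣ F7 a b j) (hty : ty7 j p = some θ) :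
    ∃ k : ℤ, ¬ (p : ℤ) ∣ k ∧ LocM (c7 j) k p (-(4 * a ^ 3 * b) ^ 2)
      (-((b ^ 2 - a ^ 2) ^ 3 * (b ^ 2 + 3 * a ^ 2))) ∧ sg0 p k = θ 0 := by
  have hpi : Prime (p : ℤ) := Nat.prime_iff_prime_int.1 hp
  have nd : ∀ l : Fin 7, j ≠ l → ¬ (p : ℤ) ∣ F7 a b l := fun l hl h3 =>
    hl (un7 hp h7 (cop_nd hab hp) h h3)
  have nd1 : ¬ (p : ℤ) ∣ 1 := fun h => hpi.not_dvd_one h
  have nd4 : ¬ (p : ℤ) ∣ 4 := by
    intro h4
    have := Int.le_of_dvd (by norm_num) h4
    omega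
  have nX : j ≠ 0 → j ≠ 1 → ¬ (p : ℤ) ∣ 4 * a ^ 3 * b := by
    intro e1 e2 h3
    rcases hpi.dvd_or_dvd h3 with h4 | h4
    · rcases hpi.dvd_or_dvd h4 with h5 | h5
      · exact nd4 h5
      · exact nd 0 e1 (hpi.dvd_of_dvd_pow h5)
    · exact nd 1 e2 h4
  have nB : j ≠ 2 → j ≠ 3 → j ≠ 4 → ¬ (p : ℤ) ∣ (b ^ 2 - a ^ 2) ^ 3 * (b ^ 2 + 3 * a ^ 2) := by
    intro e1 e2 e3 h3
    rcases hpi.dvd_or_dvd h3 with h4 | h4
    · have h5 := hpi.dvd_of_dvd_pow h4
      have e : b ^ 2 - a ^ 2 = (b - a) * (b + a) := by ring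
      rw [e] at h5
      rcases hpi.dvd_or_dvd h5 with h4 | h4
      · exact nd 2 e1 h4
      · exact nd 3 e2 h4
    · exact nd 4 e3 h4
  have hty0 : j ≠ 1 → j ≠ 6 → ty7 j p = some (tyb false) := by
    intro e1 e6
    have h1 : j.val ≠ 1 := fun e => e1 (Fin.ext e)
    have h6 : j.val ≠ 6 := fun e => e6 (Fin.ext e)
    unfold ty7
    rw [if_neg h1, if_neg h6]
  have cl1 : c7 j = 1 → (p : ℤ) ∣ (b ^ 2 - a ^ 2) ^ 3 * (b ^ 2 + 3 * a ^ 2) → j ≠ 0 → j ≠ 1 →
      LocM (c7 j) 1 p (-(4 * a ^ 3 * b) ^ 2)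
      (-((b ^ 2 - a ^ 2) ^ 3 * (b ^ 2 + 3 * a ^ 2))) := by
    intro hc hd e0 e1
    unfold LocM
    rw [hc, if_neg (by decide), if_pos rfl]
    have h3 := nX e0 e1
    refine ⟨dvd_neg.2 hd, ?_, ?_, Or.inr (jacobiSym.one_left p)⟩
    · rw [dvd_neg]
      exact fun h4 => h3 (hpi.dvd_of_dvd_pow h4)
    · have e : 1 * -(-(4 * a ^ 3 * b) ^ 2) = (4 * a ^ 3 * b) ^ 2 := by ring
      rw [e]
      exact jac_sq hp h3
  rcases fin7 j with rfl | rfl | rfl | rfl | rfl | rfl | rfl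
  · refine ⟨1, nd1, ?_, ?_⟩
    · unfold LocM
      rw [if_pos (show c7 0 = 0 from rfl)]
      have h3 := nB (by decide) (by decide) (by decide)
      have ha : (p : ℤ) ∣ a := h
      have hb : ¬ (p : ℤ) ∣ b := nd 1 (by decide)
      refine ⟨?_, by rwa [dvd_neg], ?_, Or.inr (jacobiSym.one_left p)⟩
      · rw [dvd_neg]
        apply dvd_pow _ two_ne_zero
        exact ((dvd_pow ha (by norm_num)).mul_left 4).mul_right b
      · have e : jacobiSym (1 * - -((b ^ 2 - a ^ 2) ^ 3 * (b ^ 2 + 3 * a ^ 2))) p =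
            jacobiSym ((b ^ 4) ^ 2) p := by
          apply jac_cong
          have : 1 * - -((b ^ 2 - a ^ 2) ^ 3 * (b ^ 2 + 3 * a ^ 2)) - (b ^ 4) ^ 2 =
              a * (a ^ 3 * (-6 * b ^ 4 + 8 * a ^ 2 * b ^ 2 - 3 * a ^ 4)) := by ring
          rw [this]
          exact ha.mul_right _
        rw [e]
        exact jac_sq hp fun h4 => hb (hpi.dvd_of_dvd_pow h4)
    · rw [hty0 (by decide) (by decide)] at hty
      rw [← Option.some.inj hty, sg0_one]
      rfl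
  · by_cases h4 : jacobiSym (-3) p = 1
    · refine ⟨1, nd1, ?_, ?_⟩
      · unfold LocM
        rw [if_pos (show c7 1 = 0 from rfl)]
        have h3 := nB (by decide) (by decide) (by decide)
        have hb : (p : ℤ) ∣ b := h
        have ha : ¬ (p : ℤ) ∣ a := nd 0 (by decide)
        refine ⟨?_, by rwa [dvd_neg], ?_, Or.inr (jacobiSym.one_left p)⟩
        · rw [dvd_neg]
          apply dvd_pow _ two_ne_zero
          exact hb.mul_left _
        · have e : jacobiSym (1 * - -((b ^ 2 - a ^ 2) ^ 3 * (b ^ 2 + 3 * a ^ 2))) p =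
              jacobiSym (-3 * (a ^ 4) ^ 2) p := by
            apply jac_cong
            have : 1 * - -((b ^ 2 - a ^ 2) ^ 3 * (b ^ 2 + 3 * a ^ 2)) - -3 * (a ^ 4) ^ 2 =
                b * (b * (b ^ 6 - 6 * a ^ 4 * b ^ 2 + 8 * a ^ 6)) := by ring
            rw [this]
            exact hb.mul_right _
          rw [e, jacobiSym.mul_left, h4, jac_sq hp fun h4 => ha (hpi.dvd_of_dvd_pow h4)]
          norm_num
      · have e : ty7 1 p = some (tyb false) := by simp [ty7, h4]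
        rw [e] at hty
        rw [← Option.some.inj hty, sg0_one]
        rfl
    · exfalso
      have : ty7 1 p = none := by simp [ty7, h4]
      rw [this] at hty
      exact absurd hty (by simp)
  · refine ⟨1, nd1, ?_, ?_⟩
    · refine cl1 rfl ?_ (by decide) (by decide)
      have h4 : (p : ℤ) ∣ b - a := h
      have e : b ^ 2 - a ^ 2 = (b - a) * (b + a) := by ring
      rw [e]
      exact (dvd_pow (h4.mul_right _) (by norm_num)).mul_right _
    · rw [hty0 (by decide) (by decide)] at hty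
      rw [← Option.some.inj hty, sg0_one]
      rfl
  · refine ⟨1, nd1, ?_, ?_⟩
    · refine cl1 rfl ?_ (by decide) (by decide)
      have h4 : (p : ℤ) ∣ b + a := h
      have e : b ^ 2 - a ^ 2 = (b - a) * (b + a) := by ring
      rw [e]
      exact (dvd_pow (h4.mul_left _) (by norm_num)).mul_right _
    · rw [hty0 (by decide) (by decide)] at hty
      rw [← Option.some.inj hty, sg0_one]
      rfl
  · refine ⟨1, nd1, ?_, ?_⟩
    · refine cl1 rfl ?_ (by decide) (by decide)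
      have h4 : (p : ℤ) ∣ b ^ 2 + 3 * a ^ 2 := h
      exact h4.mul_left _
    · rw [hty0 (by decide) (by decide)] at hty
      rw [← Option.some.inj hty, sg0_one]
      rfl
  · -- the form `b² + a²`
    have h3 := nX (by decide) (by decide)
    have h4 : (p : ℤ) ∣ b ^ 2 + a ^ 2 := h
    have ha : ¬ (p : ℤ) ∣ a := nd 0 (by decide)
    have hb : ¬ (p : ℤ) ∣ b := nd 1 (by decide)
    have hj1 : jacobiSym (-1) p = 1 := by
      have e : jacobiSym (-1 * b ^ 2) p = jacobiSym (a ^ 2) p := by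
        apply jac_cong
        have : -1 * b ^ 2 - a ^ 2 = -(b ^ 2 + a ^ 2) := by ring
        rw [this, dvd_neg]
        exact h4
      rw [jacobiSym.mul_left, jac_sq hp hb, jac_sq hp ha, mul_one] at e
      exact e
    refine ⟨-1, fun h5 => nd1 (dvd_neg.1 h5), ?_, ?_⟩
    · unfold LocM
      rw [if_neg (show ¬ c7 5 = 0 by decide), if_neg (show ¬ c7 5 = 1 by decide)]
      refine ⟨?_, ?_, ?_, Or.inr hj1⟩
      · rw [diff7]
        exact (dvd_pow h4 (by norm_num)).mul_left _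
      · rw [dvd_neg]
        exact fun h4 => h3 (hpi.dvd_of_dvd_pow h4)
      · have e : -1 * -(4 * a ^ 3 * b) ^ 2 = (4 * a ^ 3 * b) ^ 2 := by ring
        rw [e]
        exact jac_sq hp h3
    · rw [hty0 (by decide) (by decide)] at hty
      rw [← Option.some.inj hty]
      unfold sg0
      rw [hj1]
      rfl
  · -- the form `b² - 3 a²`
    have h3 := nX (by decide) (by decide)
    have h4 : (p : ℤ) ∣ b ^ 2 - 3 * a ^ 2 := h
    refine ⟨-1, fun h5 => nd1 (dvd_neg.1 h5), ?_, ?_⟩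
    · unfold LocM
      rw [if_neg (show ¬ c7 6 = 0 by decide), if_neg (show ¬ c7 6 = 1 by decide)]
      refine ⟨?_, ?_, ?_, Or.inl ?_⟩
      · rw [diff7]
        exact h4.mul_right _
      · rw [dvd_neg]
        exact fun h4 => h3 (hpi.dvd_of_dvd_pow h4)
      · have e : -1 * -(4 * a ^ 3 * b) ^ 2 = (4 * a ^ 3 * b) ^ 2 := by ring
        rw [e]
        exact jac_sq hp h3
      · rw [diff7, val_one hp (x := b ^ 2 - 3 * a ^ 2) (h0 6) h4 h']
        · exact odd_one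
        · exact fun h6 => nd 5 (by decide) (hpi.dvd_of_dvd_pow h6)
    · have hθ : θ = tyb (decide (jacobiSym (-1) p = -1)) := by
        have : ty7 6 p = some (tyb (decide (jacobiSym (-1) p = -1))) := by simp [ty7]
        rw [this] at hty
        exact (Option.some.inj hty).symm
      rw [hθ]
      rfl

lemma neu7 {a b : ℤ} (hab : IsCoprime a b) (h0 : ∀ j, F7 a b j ≠ 0) {p : ℕ} (hp : p.Prime)
    (h7 : 7 < p) (j : Fin 7) (h : (p : ℤ) ∣ F7 a b j) (hty : ty7 j p = none) :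
    NeuM (c7 j) p (-(4 * a ^ 3 * b) ^ 2) (-((b ^ 2 - a ^ 2) ^ 3 * (b ^ 2 + 3 * a ^ 2))) := by
  have hpi : Prime (p : ℤ) := Nat.prime_iff_prime_int.1 hp
  haveI : Fact p.Prime := ⟨hp⟩
  have hj : j = 1 ∧ ¬ jacobiSym (-3) p = 1 := by
    unfold ty7 at hty
    rcases fin7 j with rfl | rfl | rfl | rfl | rfl | rfl | rfl <;> simp at hty ⊢
    exact hty
  obtain ⟨rfl, h4⟩ := hj
  have nd : ∀ l : Fin 7, 1 ≠ l → ¬ (p : ℤ) ∣ F7 a b l := fun l hl h3 =>
    hl (un7 hp h7 (cop_nd hab hp) h h3)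
  have ha : ¬ (p : ℤ) ∣ a := nd 0 (by decide)
  have hb : (p : ℤ) ∣ b := h
  have hb0 : b ≠ 0 := h0 1
  have ha0 : a ≠ 0 := h0 0
  have hX0 : 4 * a ^ 3 * b ≠ 0 := mul_ne_zero (mul_ne_zero (by norm_num) (pow_ne_zero 3 ha0)) hb0
  unfold NeuM
  rw [if_pos (show c7 1 = 0 from rfl)]
  refine ⟨?_, ?_, ?_, ?_⟩
  · rw [dvd_neg]
    apply dvd_pow _ two_ne_zero
    exact hb.mul_left _
  · rw [dvd_neg]
    intro h3
    rcases hpi.dvd_or_dvd h3 with h4 | h4
    · have h5 := hpi.dvd_of_dvd_pow h4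
      have e : b ^ 2 - a ^ 2 = (b - a) * (b + a) := by ring
      rw [e] at h5
      rcases hpi.dvd_or_dvd h5 with h4 | h4
      · exact nd 2 (by decide) h4
      · exact nd 3 (by decide) h4
    · exact nd 4 (by decide) h4
  · unfold padicValInt
    rw [Int.natAbs_neg, Int.natAbs_pow, padicValNat.pow]
    exact even_two_mul _
  · have e : jacobiSym (- -((b ^ 2 - a ^ 2) ^ 3 * (b ^ 2 + 3 * a ^ 2))) p =
        jacobiSym (-3 * (a ^ 4) ^ 2) p := by
      apply jac_cong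
      have : - -((b ^ 2 - a ^ 2) ^ 3 * (b ^ 2 + 3 * a ^ 2)) - -3 * (a ^ 4) ^ 2 =
          b * (b * (b ^ 6 - 6 * a ^ 4 * b ^ 2 + 8 * a ^ 6)) := by ring
      rw [this]
      exact hb.mul_right _
    rw [e, jacobiSym.mul_left, jac_sq hp fun h4 => ha (hpi.dvd_of_dvd_pow h4), mul_one]
    exact h4

lemma ok7 : D7.OK where
  cls3 := by intro j; show c7 j ≠ 3; revert j; decide
  c1 := by show 1 ≤ 10; norm_num
  ne := by
    intro a b h
    show -(4 * a ^ 3 * b) ^ 2 ≠ 0 ∧ -((b ^ 2 - a ^ 2) ^ 3 * (b ^ 2 + 3 * a ^ 2)) ≠ 0 ∧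
      -(4 * a ^ 3 * b) ^ 2 ≠ -((b ^ 2 - a ^ 2) ^ 3 * (b ^ 2 + 3 * a ^ 2))
    have h0 : a ≠ 0 := h 0
    have h1 : b ≠ 0 := h 1
    have h2 : b - a ≠ 0 := h 2
    have h3 : b + a ≠ 0 := h 3
    have h4 : b ^ 2 + 3 * a ^ 2 ≠ 0 := h 4
    have h5 : b ^ 2 + a ^ 2 ≠ 0 := h 5
    have h6 : b ^ 2 - 3 * a ^ 2 ≠ 0 := h 6
    refine ⟨neg_ne_zero.2 (pow_ne_zero _ (mul_ne_zero (mul_ne_zero (by norm_num)
      (pow_ne_zero 3 h0)) h1)), ?_, ?_⟩
    · have e : b ^ 2 - a ^ 2 = (b - a) * (b + a) := by ring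
      rw [e]
      exact neg_ne_zero.2 (mul_ne_zero (pow_ne_zero _ (mul_ne_zero h2 h3)) h4)
    · rw [Ne, ← sub_eq_zero, diff7]
      exact mul_ne_zero h6 (pow_ne_zero 3 h5)
  cong := by
    intro p w a a' j h h1
    change (p : ℤ) ∣ F7 a (w + 2 * a) j at h1
    show (p : ℤ) ∣ F7 a' (w + 2 * a') j
    rw [dvd_F7] at h1 ⊢
    have h2 : (a : ZMod p) = (a' : ZMod p) := by
      rw [ZMod.intCast_eq_intCast_iff_dvd_sub, ← dvd_neg, neg_sub]
      exact h
    push_cast at h1 ⊢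
    rwa [← h2]
  un := fun p hp hz a b hab j l h1 h2 => un7 hp hz hab h1 h2
  ndw := fun p hp hz w a hab j h => ndw7 hp hz hab h
  hens := fun p hp hz w a a' hw j h1 h2 h3 => hens7 hp hz hw h1 h2 h3
  card := fun p hp hz w N hw j hty => card7 hp hz N hw j hty
  nr0 := by
    intro j p h
    change ty7 j p = none at h
    show nr7 j p = 0
    unfold ty7 at h
    unfold nr7
    rcases fin7 j with rfl | rfl | rfl | rfl | rfl | rfl | rfl <;> simp at h ⊢
    exact h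
  nrs := by
    intro p
    show ∑ j, nr7 j p ≤ 10
    unfold nr7 jn
    rw [Fin.sum_univ_seven]
    simp
    split_ifs <;> norm_num
  sz := fun X a b ha hb hX j => sz7 ha hb hX j
  bad := by
    intro p hp hz a b h
    change (p : ℤ) ∣ 2 * -(4 * a ^ 3 * b) ^ 2 * -((b ^ 2 - a ^ 2) ^ 3 * (b ^ 2 + 3 * a ^ 2)) *
      (-(4 * a ^ 3 * b) ^ 2 - -((b ^ 2 - a ^ 2) ^ 3 * (b ^ 2 + 3 * a ^ 2))) at h
    show ∃ j, (p : ℤ) ∣ F7 a b j
    have hpi : Prime (p : ℤ) := Nat.prime_iff_prime_int.1 hp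
    have h7 : 7 < p := hz
    rw [diff7] at h
    rcases hpi.dvd_or_dvd h with h1 | h1
    · rcases hpi.dvd_or_dvd h1 with h2 | h2
      · rcases hpi.dvd_or_dvd h2 with h3 | h3
        · exfalso
          have := Int.le_of_dvd (by norm_num) h3
          omega
        · have h4 := hpi.dvd_of_dvd_pow (dvd_neg.1 h3)
          rcases hpi.dvd_or_dvd h4 with h5 | h5
          · rcases hpi.dvd_or_dvd h5 with h6 | h6
            · exfalso
              have := Int.le_of_dvd (by norm_num) h6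
              omega
            · exact ⟨0, hpi.dvd_of_dvd_pow h6⟩
          · exact ⟨1, h5⟩
      · rcases hpi.dvd_or_dvd (dvd_neg.1 h2) with h3 | h3
        · have h4 := hpi.dvd_of_dvd_pow h3
          have e : b ^ 2 - a ^ 2 = (b - a) * (b + a) := by ring
          rw [e] at h4
          rcases hpi.dvd_or_dvd h4 with h5 | h5
          · exact ⟨2, h5⟩
          · exact ⟨3, h5⟩
        · exact ⟨4, h3⟩
    · rcases hpi.dvd_or_dvd h1 with h2 | h2
      · exact ⟨6, h2⟩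
      · exact ⟨5, hpi.dvd_of_dvd_pow h2⟩
  loc := fun p hp hz a b hab h0 j θ h1 h2 h3 => loc7 hab h0 hp hz j θ h1 h2 h3
  neu := fun p hp hz a b hab h0 j h1 h2 => neu7 hab h0 hp hz j h1 h2

/-- the coefficients of the weights -/
noncomputable def P7 (j : Fin 7) (κ : ℤ) : ℝ :=
  if j.val = 1 then (if κ = 1 then 1 / 2 else if κ = -3 then 1 / 2 else 0)
  else if j.val < 4 then (if κ = 1 then 1 else 0)
  else if j.val = 4 then (if κ = 1 then 1 else if κ = -3 then 1 else 0)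
  else if j.val = 5 then (if κ = 1 then 1 else if κ = -1 then 1 else 0)
  else (if κ = 1 then 1 else if κ = 3 then 1 else 0)

/-- the coefficients of the signed weights -/
noncomputable def Q7 (j : Fin 7) (κ : ℤ) : ℝ :=
  if j.val = 6 then (if κ = -1 then 1 else if κ = -3 then 1 else 0) else P7 j κ

lemma sum_tyb (f : Ty → ℝ) (b : Bool) (x : ℝ) (h : ∀ θ, f θ = if tyb b = θ then x else 0) :
    ∑ θ, f θ = x := by
  rw [sum_congr rfl fun θ _ => h θ, sum_ite_eq, if_pos (mem_univ _)]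

lemma sumK (f : ℤ → ℝ) : ∑ κ ∈ ({1, -1, 3, -3} : Finset ℤ), f κ = f 1 + f (-1) + f 3 + f (-3) := by
  rw [sum_insert (by decide), sum_insert (by decide), sum_insert (by decide), sum_singleton]
  ring

lemma jn_cast {p : ℕ} {κ : ℤ} (h : jacobiSym κ p = 1 ∨ jacobiSym κ p = -1) :
    ((jn κ p : ℕ) : ℝ) = 1 + Jr κ p := by
  unfold jn Jr
  rcases h with h | h <;> rw [h]
  · norm_num
  · norm_num

lemma pm3 {p : ℕ} (hp : p.Prime) (hz : 7 < p) :
    (jacobiSym (-1) p = 1 ∨ jacobiSym (-1) p = -1) ∧ (jacobiSym 3 p = 1 ∨ jacobiSym 3 p = -1) ∧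
    (jacobiSym (-3) p = 1 ∨ jacobiSym (-3) p = -1) ∧
    jacobiSym (-3) p = jacobiSym (-1) p * jacobiSym 3 p := by
  have hpI : Prime (p : ℤ) := Nat.prime_iff_prime_int.1 hp
  have d3 : ¬ (p : ℤ) ∣ 3 := by
    intro h
    have := Int.le_of_dvd (by norm_num) h
    omega
  have d3' : ¬ (p : ℤ) ∣ -3 := by rwa [dvd_neg]
  have d1 : ¬ (p : ℤ) ∣ -1 := by
    rw [dvd_neg]
    exact hpI.not_dvd_one
  refine ⟨jac_pm hp d1, jac_pm hp d3, jac_pm hp d3', ?_⟩
  rw [← jacobiSym.mul_left]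
  norm_num

lemma gP7 (j : Fin 7) {p : ℕ} (hp : p.Prime) (hz : 7 < p) :
    rs D7.g j p = ∑ κ ∈ ({1, -1, 3, -3} : Finset ℤ), P7 j κ * Jr κ p := by
  rw [ok7.rs_eq]
  show ((nr7 j p : ℕ) : ℝ) = _
  obtain ⟨h1, h3, hm3, -⟩ := pm3 hp hz
  rw [sumK, Jr_one']
  unfold nr7 P7
  rcases fin7 j with rfl | rfl | rfl | rfl | rfl | rfl | rfl
  · norm_num
  · rcases hm3 with h | h
    · simp [h, Jr]
      norm_num
    · simp [h, Jr]
  · norm_num
  · norm_num
  · have := jn_cast hm3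
    norm_num
    linarith
  · have := jn_cast h1
    norm_num
    linarith
  · have := jn_cast h3
    norm_num
    linarith

lemma gQ7 (j : Fin 7) {p : ℕ} (hp : p.Prime) (hz : 7 < p) :
    ∑ θ : Ty, (if θ 0 = true then -1 else 1) * D7.g (j, θ) p =
      ∑ κ ∈ ({1, -1, 3, -3} : Finset ℤ), Q7 j κ * Jr κ p := by
  obtain ⟨h1, h3, hm3, hmul⟩ := pm3 hp hz
  have hg : ∀ (b : Bool), ty7 j p = some (tyb b) →
      ∑ θ : Ty, (if θ 0 = true then -1 else 1) * D7.g (j, θ) p =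
        (if b = true then -1 else 1) * (nr7 j p : ℝ) := by
    intro b hb
    refine sum_tyb _ b _ fun θ => ?_
    show (if θ 0 = true then -1 else 1) *
      (if ty7 j p = some θ then ((nr7 j p : ℕ) : ℝ) else 0) = _
    rw [hb]
    by_cases h : tyb b = θ
    · subst h
      rw [if_pos rfl, if_pos rfl]
      rfl
    · rw [if_neg h, if_neg (fun h1 => h (Option.some.inj h1)), mul_zero]
  have hg0 : ty7 j p = none →
      ∑ θ : Ty, (if θ 0 = true then -1 else 1) * D7.g (j, θ) p = 0 := by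
    intro hb
    refine sum_eq_zero fun θ _ => ?_
    show _ * (if ty7 j p = some θ then ((nr7 j p : ℕ) : ℝ) else 0) = _
    rw [hb]
    simp
  by_cases h6 : j = 6
  · subst h6
    rw [hg (decide (jacobiSym (-1) p = -1)) (by simp [ty7])]
    have e : nr7 6 p = jn 3 p := by simp [nr7]
    rw [e, jn_cast h3, sumK]
    have hJ : Jr (-3) p = Jr (-1) p * Jr 3 p := by
      unfold Jr
      rw [hmul]
      push_cast
      ring
    simp only [Q7]
    rw [hJ]
    rcases h1 with h | h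
    · have : Jr (-1) p = 1 := by unfold Jr; rw [h]; norm_num
      rw [this]
      simp [h]
    · have : Jr (-1) p = -1 := by unfold Jr; rw [h]; norm_num
      rw [this]
      simp [h]
      ring
  · have h6' : ¬ j.val = 6 := fun h => h6 (Fin.ext h)
    have hQ : ∀ κ, Q7 j κ = P7 j κ := by
      intro κ
      unfold Q7
      rw [if_neg h6']
    have hQ2 : ∑ κ ∈ ({1, -1, 3, -3} : Finset ℤ), Q7 j κ * Jr κ p =
        ∑ κ ∈ ({1, -1, 3, -3} : Finset ℤ), P7 j κ * Jr κ p :=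
      sum_congr rfl fun κ _ => by rw [hQ κ]
    rw [hQ2, ← gP7 j hp hz, ok7.rs_eq]
    show _ = ((nr7 j p : ℕ) : ℝ)
    rcases hty : ty7 j p with _ | θ
    · rw [hg0 hty]
      have := ok7.nr0 j p hty
      change nr7 j p = 0 at this
      rw [this]
      simp
    · have hb : ty7 j p = some (tyb false) := by
        rw [hty]
        unfold ty7 at hty
        rw [if_neg h6'] at hty
        split_ifs at hty with h1 h2
        · exact hty.symm
        · exact hty.symm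
      rw [hg false hb]
      simp

lemma notsq (κ : ℤ) (h : κ ∈ ({1, -1, 3, -3} : Finset ℤ)) :
    κ ≠ 0 ∧ (κ = 1 ∨ ∀ r : ℤ, r ^ 2 ≠ κ) := by
  rw [mem_insert, mem_insert, mem_insert, mem_singleton] at h
  rcases h with rfl | rfl | rfl | rfl
  · exact ⟨by norm_num, Or.inl rfl⟩
  · exact ⟨by norm_num, Or.inr fun r hr => by nlinarith [sq_nonneg r]⟩
  · refine ⟨by norm_num, Or.inr fun r hr => ?_⟩
    have h1 : r < 2 := by nlinarith
    have h2 : -2 < r := by nlinarith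
    interval_cases r <;> norm_num at hr
  · exact ⟨by norm_num, Or.inr fun r hr => by nlinarith [sq_nonneg r]⟩

/-- the average over the box -/
theorem avg7 : ∃ α : ℝ, 0 < α ∧ α ≤ 1 ∧ ∃ C : ℝ, 0 ≤ C ∧ ∀ T : ℕ, 1 ≤ T →
    ∀ S : Finset (ℤ × ℤ), S ⊆ Box T → (∀ t ∈ S, IsCoprime t.1 t.2 ∧ ∀ j, F7 t.1 t.2 j ≠ 0) →
    ∑ t ∈ S, ((2 : ℝ) ^ Module.finrank ℤ (EAB (-(4 * t.1 ^ 3 * t.2) ^ 2)
        (-((t.2 ^ 2 - t.1 ^ 2) ^ 3 * (t.2 ^ 2 + 3 * t.1 ^ 2)))).toAffine.Point) ^ α ≤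
      C * (T : ℝ) ^ 2 := by
  have hP0 : ∀ j κ, 0 ≤ P7 j κ := by
    intro j κ
    unfold P7
    split_ifs <;> norm_num
  have hQ0 : ∀ j κ, 0 ≤ Q7 j κ := by
    intro j κ
    unfold Q7
    split_ifs
    · norm_num
    · norm_num
    · norm_num
    · exact hP0 j κ
  have hm := mdlG D7.cls ok7.cls3 D7.g D7.c 7 {1, -1, 3, -3} P7 Q7 (by decide) notsq hP0 hQ0
    (fun j p hp hz => gP7 j hp hz) (fun j p hp hz => gQ7 j hp hz) ok7.c1 D7.g_nonneg
    (fun j p => by rw [ok7.rs_eq]; exact_mod_cast ok7.nr_le j p)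
  have a1 : ∀ j : Fin 7, 0 < P7 j 1 := by
    intro j
    rcases fin7 j with rfl | rfl | rfl | rfl | rfl | rfl | rfl <;> simp [P7]
  have a2 : ∀ j : Fin 7, 0 ≤ (P7 j 1 + Q7 j 1) / 2 := by
    intro j
    have h1 := hP0 j 1
    have h2 := hQ0 j 1
    positivity
  have a3 : ∀ k : Fin 4, k ≠ 3 → Wc D7.cls (fun j => (P7 j 1 + Q7 j 1) / 2) k <
      Wo D7.cls (fun j => P7 j 1) - Wc D7.cls (fun j => P7 j 1) k := by
    intro k hk
    have e1 : ∀ f : Fin 7 → ℝ, Wc D7.cls f k = ∑ j, if c7 j = k then f j else 0 := by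
      intro f
      unfold Wc
      rw [sum_filter]
      rfl
    have e2 : ∀ f : Fin 7 → ℝ, Wo D7.cls f = ∑ j, if c7 j ≠ 3 then f j else 0 := by
      intro f
      unfold Wo
      rw [sum_filter]
      rfl
    rw [e1, e1, e2]
    simp only [Fin.sum_univ_seven]
    have h4 : ∀ k : Fin 4, k ≠ 3 → k = 0 ∨ k = 1 ∨ k = 2 := by decide
    rcases h4 k hk with rfl | rfl | rfl
    · simp [c7, P7, Q7]
      norm_num
    · simp [c7, P7, Q7]
      try norm_num
    · simp [c7, P7, Q7]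
      try norm_num
  exact avgS D7 ok7 _ _ a1 a2 a3 hm

end Pool.Agent.R421.Z12
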