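import Pool.Agent.R421.HF.Avg
import Pool.Agent.R421.HF.MdlG

/-!
# Project Z12 (helper421): the family of the curves with a point of order twelve, up to isogeny

`y² = x (x + M) (x + N)` with `M = 16 a⁶ b²`, `N = (b² - a²)³ (b² + 3 a²)`,
`M - N = (3 a² - b²) (a² + b²)³`.
-/

set_option autoImplicit false
set_option linter.all false

namespace Pool.Agent.R421.Z12

open Finset Pool.Agent.W262.RK Pool.Agent.W307.RT Pool.Agent.TH841.PT Pool.Agent.R421.HF
open Pool.Agent.R421.UR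

/-- the seven forms over a ring -/
def Fr {R : Type*} [CommRing R] (a b : R) (j : Fin 7) : R :=
  ![a, b, b - a, b + a, b ^ 2 + 3 * a ^ 2, b ^ 2 + a ^ 2, b ^ 2 - 3 * a ^ 2] j

/-- the seven forms -/
def F7 (a b : ℤ) (j : Fin 7) : ℤ :=
  ![a, b, b - a, b + a, b ^ 2 + 3 * a ^ 2, b ^ 2 + a ^ 2, b ^ 2 - 3 * a ^ 2] j

/-- the classes -/
def c7 : Fin 7 → Fin 4 := ![0, 0, 1, 1, 1, 2, 2]

/-- the type with the bit `b` -/
def tyb (b : Bool) : Ty := fun k => if k = 0 then b else false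

/-- the types -/
noncomputable def ty7 (j : Fin 7) (p : ℕ) : Option Ty :=
  if j.val = 1 then (if jacobiSym (-3) p = 1 then some (tyb false) else none)
  else if j.val = 6 then some (tyb (decide (jacobiSym (-1) p = -1)))
  else some (tyb false)

/-- the number of the square roots -/
noncomputable def jn (κ : ℤ) (p : ℕ) : ℕ := if jacobiSym κ p = 1 then 2 else 0

/-- the numbers of the roots -/
noncomputable def nr7 (j : Fin 7) (p : ℕ) : ℕ :=
  if j.val = 0 then 1 else if j.val = 1 then (if jacobiSym (-3) p = 1 then 1 else 0)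
  else if j.val < 4 then 1 else if j.val = 4 then jn (-3) p else if j.val = 5 then jn (-1) p
  else jn 3 p

/-- the family -/
noncomputable def D7 : HFam (Fin 7) where
  F := F7
  cls := c7
  A := fun a b => -(4 * a ^ 3 * b) ^ 2
  B := fun a b => -((b ^ 2 - a ^ 2) ^ 3 * (b ^ 2 + 3 * a ^ 2))
  κ := 2
  z1 := 7
  c := 10
  dg := 2
  ty := ty7
  nr := nr7

lemma fin7 : ∀ j : Fin 7, j = 0 ∨ j = 1 ∨ j = 2 ∨ j = 3 ∨ j = 4 ∨ j = 5 ∨ j = 6 := by decide

lemma cast_F7 (p : ℕ) (a b : ℤ) (j : Fin 7) :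
    ((F7 a b j : ℤ) : ZMod p) = Fr (a : ZMod p) (b : ZMod p) j := by
  fin_cases j <;> simp [F7, Fr]

lemma dvd_F7 {p : ℕ} (a b : ℤ) (j : Fin 7) :
    (p : ℤ) ∣ F7 a b j ↔ Fr (a : ZMod p) (b : ZMod p) j = 0 := by
  rw [← ZMod.intCast_zmod_eq_zero_iff_dvd, cast_F7]

/-- two different forms have no common zero -/
lemma un_field {F : Type*} [Field F] (h2 : (2 : F) ≠ 0) (h3 : (3 : F) ≠ 0) {a b : F} {j l : Fin 7}
    (hj : Fr a b j = 0) (hl : Fr a b l = 0) (hjl : j ≠ l) : a = 0 ∧ b = 0 := by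
  have k1 : ∀ x : F, 2 * x = 0 → x = 0 := fun x hx => (mul_eq_zero.1 hx).resolve_left h2
  have k3 : ∀ x : F, 3 * x = 0 → x = 0 := fun x hx => (mul_eq_zero.1 hx).resolve_left h3
  have k2 : ∀ x : F, x ^ 2 = 0 → x = 0 := fun x hx => (pow_eq_zero_iff two_ne_zero).1 hx
  have h4 : (4 : F) ≠ 0 := by
    have : (4 : F) = 2 * 2 := by norm_num
    rw [this]
    exact mul_ne_zero h2 h2
  have h6 : (6 : F) ≠ 0 := by
    have : (6 : F) = 2 * 3 := by norm_num
    rw [this]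
    exact mul_ne_zero h2 h3
  wlog hlt : j < l generalizing j l with H
  · exact H hl hj hjl.symm (lt_of_le_of_ne (not_lt.1 hlt) hjl.symm)
  fin_cases j <;> fin_cases l <;> simp [Fr] at hj hl hlt ⊢
  all_goals grind

lemma un7 {p : ℕ} (hp : p.Prime) (h7 : 7 < p) {a b : ℤ} (hab : ¬ ((p : ℤ) ∣ a ∧ (p : ℤ) ∣ b))
    {j l : Fin 7} (hj : (p : ℤ) ∣ F7 a b j) (hl : (p : ℤ) ∣ F7 a b l) : j = l := by
  haveI : Fact p.Prime := ⟨hp⟩
  have n2 : (2 : ZMod p) ≠ 0 := by
    simpa using Pool.Agent.Y515.Z8.two_ne h7 2 (by norm_num) (by norm_num)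
  have n3 : (3 : ZMod p) ≠ 0 := by
    simpa using Pool.Agent.Y515.Z8.two_ne h7 3 (by norm_num) (by norm_num)
  by_contra hjl
  rw [dvd_F7] at hj hl
  have h4 := un_field n2 n3 hj hl hjl
  rw [ZMod.intCast_zmod_eq_zero_iff_dvd, ZMod.intCast_zmod_eq_zero_iff_dvd] at h4
  exact hab h4

lemma ndw7 {p : ℕ} (hp : p.Prime) (h7 : 7 < p) {w a : ℤ} (hab : IsCoprime a (w + 2 * a))
    {j : Fin 7} (hj : (p : ℤ) ∣ F7 a (w + 2 * a) j) : ¬ (p : ℤ) ∣ w := by
  haveI : Fact p.Prime := ⟨hp⟩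
  intro hw
  have n2 : (2 : ZMod p) ≠ 0 := by
    simpa using Pool.Agent.Y515.Z8.two_ne h7 2 (by norm_num) (by norm_num)
  have n3 : (3 : ZMod p) ≠ 0 := by
    simpa using Pool.Agent.Y515.Z8.two_ne h7 3 (by norm_num) (by norm_num)
  have n5 : (5 : ZMod p) ≠ 0 := by
    simpa using Pool.Agent.Y515.Z8.two_ne h7 5 (by norm_num) (by norm_num)
  have n7 : (7 : ZMod p) ≠ 0 := by
    simpa using Pool.Agent.Y515.Z8.two_ne h7 7 (by norm_num) (by norm_num)
  rw [dvd_F7] at hj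
  push_cast at hj
  rw [← ZMod.intCast_zmod_eq_zero_iff_dvd] at hw
  rw [hw] at hj
  have ha : (a : ZMod p) = 0 := by
    generalize (a : ZMod p) = x at hj
    have k2 : ∀ y : ZMod p, y ^ 2 = 0 → y = 0 := fun y hy => (pow_eq_zero_iff two_ne_zero).1 hy
    fin_cases j <;> simp [Fr] at hj
    · exact hj
    · exact hj.resolve_left n2
    · linear_combination hj
    · have : 3 * x = 0 := by linear_combination hj
      exact (mul_eq_zero.1 this).resolve_left n3
    · have : 7 * x ^ 2 = 0 := by linear_combination hj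
      exact k2 _ ((mul_eq_zero.1 this).resolve_left n7)
    · have : 5 * x ^ 2 = 0 := by linear_combination hj
      exact k2 _ ((mul_eq_zero.1 this).resolve_left n5)
    · have : x ^ 2 = 0 := by linear_combination hj
      exact k2 _ this
  rw [ZMod.intCast_zmod_eq_zero_iff_dvd] at ha hw
  have h5 := hab.isUnit_of_dvd' ha (dvd_add hw (ha.mul_left 2))
  rw [Int.isUnit_iff] at h5
  have := hp.one_lt
  omega

lemma hens7 {p : ℕ} (hp : p.Prime) (h7 : 7 < p) {w a a' : ℤ} (hw : ¬ (p : ℤ) ∣ w) {j : Fin 7}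
    (h1 : (p : ℤ) ∣ a - a') (h2 : (p : ℤ) ^ 2 ∣ F7 a (w + 2 * a) j)
    (h3 : (p : ℤ) ^ 2 ∣ F7 a' (w + 2 * a') j) : (p : ℤ) ^ 2 ∣ a - a' := by
  have hpI : Prime (p : ℤ) := Nat.prime_iff_prime_int.1 hp
  have hsm : ∀ n : ℕ, 0 < n → n ≤ 7 → ¬ (p : ℤ) ∣ (n : ℤ) := by
    intro n hn hn7 h
    have := Nat.le_of_dvd hn (Int.natCast_dvd_natCast.1 h)
    omega
  have n2 : ¬ (p : ℤ) ∣ 2 := hsm 2 (by norm_num) (by norm_num)
  have n3 : ¬ (p : ℤ) ∣ 3 := hsm 3 (by norm_num) (by norm_num)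
  have n4 : ¬ (p : ℤ) ∣ 4 := hsm 4 (by norm_num) (by norm_num)
  have n5 : ¬ (p : ℤ) ∣ 5 := hsm 5 (by norm_num) (by norm_num)
  have n7 : ¬ (p : ℤ) ∣ 7 := hsm 7 (by norm_num) (by norm_num)
  have hF : (p : ℤ) ∣ F7 a (w + 2 * a) j := (dvd_pow_self (p : ℤ) two_ne_zero).trans h2
  have main : ∀ q : ℤ, F7 a (w + 2 * a) j - F7 a' (w + 2 * a') j = q * (a - a') →
      ¬ (p : ℤ) ∣ q → (p : ℤ) ^ 2 ∣ a - a' := by
    intro q hq hpq
    have h5 : (p : ℤ) ^ 2 ∣ q * (a - a') := by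
      rw [← hq]
      exact dvd_sub h2 h3
    have hcop : IsCoprime ((p : ℤ) ^ 2) q := by
      apply IsCoprime.pow_left
      rw [hpI.coprime_iff_not_dvd]
      exact hpq
    exact hcop.dvd_of_dvd_mul_left h5
  have hw2 : ¬ (p : ℤ) ∣ w ^ 2 := fun h => hw (hpI.dvd_of_dvd_pow h)
  fin_cases j
  · exact main 1 (by simp [F7]) (fun h => hpI.not_dvd_one h)
  · exact main 2 (by simp [F7]; ring) n2
  · exact main 1 (by simp [F7]; ring) (fun h => hpI.not_dvd_one h)
  · exact main 3 (by simp [F7]; ring) n3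
  · refine main (4 * w + 7 * (a + a')) (by simp [F7]; ring) (fun h => ?_)
    simp [F7] at hF
    have e1 : (p : ℤ) ∣ 2 * (2 * w + 7 * a) := by
      have : 2 * (2 * w + 7 * a) = (4 * w + 7 * (a + a')) + 7 * (a - a') := by ring
      rw [this]
      exact dvd_add h (h1.mul_left 7)
    have e2 := (hpI.dvd_or_dvd e1).resolve_left n2
    have e3 : (p : ℤ) ∣ 3 * w ^ 2 := by
      have : 3 * w ^ 2 = 7 * ((w + 2 * a) ^ 2 + 3 * a ^ 2) - (2 * w + 7 * a) * (2 * w + 7 * a) := by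
        ring
      rw [this]
      exact dvd_sub (hF.mul_left 7) (e2.mul_left _)
    exact hw2 ((hpI.dvd_or_dvd e3).resolve_left n3)
  · refine main (4 * w + 5 * (a + a')) (by simp [F7]; ring) (fun h => ?_)
    simp [F7] at hF
    have e1 : (p : ℤ) ∣ 2 * (2 * w + 5 * a) := by
      have : 2 * (2 * w + 5 * a) = (4 * w + 5 * (a + a')) + 5 * (a - a') := by ring
      rw [this]
      exact dvd_add h (h1.mul_left 5)
    have e2 := (hpI.dvd_or_dvd e1).resolve_left n2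
    have e3 : (p : ℤ) ∣ w ^ 2 := by
      have : w ^ 2 = 5 * ((w + 2 * a) ^ 2 + a ^ 2) - (2 * w + 5 * a) * (2 * w + 5 * a) := by
        ring
      rw [this]
      exact dvd_sub (hF.mul_left 5) (e2.mul_left _)
    exact hw2 e3
  · refine main (4 * w + (a + a')) (by simp [F7]; ring) (fun h => ?_)
    simp [F7] at hF
    have e1 : (p : ℤ) ∣ 2 * (2 * w + a) := by
      have : 2 * (2 * w + a) = (4 * w + (a + a')) + (a - a') := by ring
      rw [this]
      exact dvd_add h h1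
    have e2 := (hpI.dvd_or_dvd e1).resolve_left n2
    have e3 : (p : ℤ) ∣ 3 * w ^ 2 := by
      have : 3 * w ^ 2 = (2 * w + a) * (2 * w + a) - ((w + 2 * a) ^ 2 - 3 * a ^ 2) := by
        ring
      rw [this]
      exact dvd_sub (e2.mul_left _) hF
    exact hw2 ((hpI.dvd_or_dvd e3).resolve_left n3)

/-- the symbols are `1` or `-1` -/
lemma jac_pm {p : ℕ} (hp : p.Prime) {κ : ℤ} (h : ¬ (p : ℤ) ∣ κ) :
    jacobiSym κ p = 1 ∨ jacobiSym κ p = -1 := by
  haveI : Fact p.Prime := ⟨hp⟩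
  rw [← jacobiSym.legendreSym.to_jacobiSym]
  apply legendreSym.eq_one_or_neg_one
  rwa [Ne, ZMod.intCast_zmod_eq_zero_iff_dvd]

lemma card_jn {p : ℕ} [hp : Fact p.Prime] (h7 : 7 < p) {κ : ℤ} (h : ¬ (p : ℤ) ∣ κ) (k : ZMod p)
    (hk : ((κ : ℤ) : ZMod p) = k) :
    (univ.filter (fun y : ZMod p => y ^ 2 = k)).card = jn κ p := by
  have hp2 : p ≠ 2 := by omega
  have h1 := legendreSym.card_sqrts p hp2 κ
  rw [jacobiSym.legendreSym.to_jacobiSym] at h1
  have he : ({x : ZMod p | x ^ 2 = ((κ : ℤ) : ZMod p)}.toFinset) =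
      univ.filter (fun y : ZMod p => y ^ 2 = k) := by
    ext x
    simp [hk]
  rw [he] at h1
  unfold jn
  rcases jac_pm hp.out h with h2 | h2 <;> rw [h2] at h1 ⊢
  · rw [if_pos rfl]
    norm_num at h1
    exact_mod_cast h1
  · rw [if_neg (by norm_num)]
    norm_num at h1
    simpa using h1

lemma card_root7 {p : ℕ} [hp : Fact p.Prime] (h7 : 7 < p) {w : ZMod p} (hw : w ≠ 0) (j : Fin 7)
    (hty : ty7 j p ≠ none) :
    (univ.filter (fun x : ZMod p => Fr x (w + 2 * x) j = 0)).card = nr7 j p := by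
  have n2 : (2 : ZMod p) ≠ 0 := by
    simpa using Pool.Agent.Y515.Z8.two_ne h7 2 (by norm_num) (by norm_num)
  have n3 : (3 : ZMod p) ≠ 0 := by
    simpa using Pool.Agent.Y515.Z8.two_ne h7 3 (by norm_num) (by norm_num)
  have n5 : (5 : ZMod p) ≠ 0 := by
    simpa using Pool.Agent.Y515.Z8.two_ne h7 5 (by norm_num) (by norm_num)
  have n7 : (7 : ZMod p) ≠ 0 := by
    simpa using Pool.Agent.Y515.Z8.two_ne h7 7 (by norm_num) (by norm_num)
  have hpI : Prime (p : ℤ) := Nat.prime_iff_prime_int.1 hp.out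
  have hsm : ∀ n : ℕ, 0 < n → n ≤ 7 → ¬ (p : ℤ) ∣ (n : ℤ) := by
    intro n hn hn7 h
    have := Nat.le_of_dvd hn (Int.natCast_dvd_natCast.1 h)
    omega
  have d3 : ¬ (p : ℤ) ∣ 3 := hsm 3 (by norm_num) (by norm_num)
  have d3' : ¬ (p : ℤ) ∣ -3 := by rwa [dvd_neg]
  have d1 : ¬ (p : ℤ) ∣ -1 := by
    rw [dvd_neg]
    exact hpI.not_dvd_one
  rcases fin7 j with rfl | rfl | rfl | rfl | rfl | rfl | rfl
  · exact Pool.Agent.Y515.Z8.card_one (fun x => Fr x (w + 2 * x) 0 = 0) 0 (fun x => by simp [Fr])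
  · have h4 : jacobiSym (-3) p = 1 := by
      by_contra h
      apply hty
      simp [ty7, h]
    have e : nr7 1 p = 1 := by simp [nr7, h4]
    refine (Pool.Agent.Y515.Z8.card_one (fun x => Fr x (w + 2 * x) 1 = 0) (-w / 2)
      (fun x => ?_)).trans e.symm
    simp only [Fr]
    simp
    rw [eq_div_iff n2]
    exact ⟨fun h => by linear_combination h, fun h => by linear_combination h⟩
  · have e : nr7 2 p = 1 := by simp [nr7]
    refine (Pool.Agent.Y515.Z8.card_one (fun x => Fr x (w + 2 * x) 2 = 0) (-w)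
      (fun x => ?_)).trans e.symm
    simp only [Fr]
    simp
    exact ⟨fun h => by linear_combination h, fun h => by linear_combination h⟩
  · have e : nr7 3 p = 1 := by simp [nr7]
    refine (Pool.Agent.Y515.Z8.card_one (fun x => Fr x (w + 2 * x) 3 = 0) (-w / 3)
      (fun x => ?_)).trans e.symm
    simp only [Fr]
    simp
    rw [eq_div_iff n3]
    exact ⟨fun h => by linear_combination h, fun h => by linear_combination h⟩
  · have e : nr7 4 p = jn (-3) p := by simp [nr7]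
    rw [e, ← card_jn h7 d3' (-3) (by push_cast; ring)]
    refine Pool.Agent.Y515.Z8.card_quad (7 : ZMod p) 2 (-3) w n7 hw
      (fun x => Fr x (w + 2 * x) 4 = 0) (by
      intro x
      rw [div_pow, div_eq_iff (pow_ne_zero 2 hw)]
      have e : (7 * x + 2 * w) ^ 2 - (-3) * w ^ 2 = 7 * Fr x (w + 2 * x) 4 := by
        simp only [Fr]
        simp
        ring
      rw [← sub_eq_zero (b := (-3) * w ^ 2), e, mul_eq_zero]
      exact ⟨Or.inr, fun h => h.resolve_left n7⟩)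
  · have e : nr7 5 p = jn (-1) p := by simp [nr7]
    rw [e, ← card_jn h7 d1 (-1) (by push_cast; ring)]
    refine Pool.Agent.Y515.Z8.card_quad (5 : ZMod p) 2 (-1) w n5 hw
      (fun x => Fr x (w + 2 * x) 5 = 0) (by
      intro x
      rw [div_pow, div_eq_iff (pow_ne_zero 2 hw)]
      have e : (5 * x + 2 * w) ^ 2 - (-1) * w ^ 2 = 5 * Fr x (w + 2 * x) 5 := by
        simp only [Fr]
        simp
        ring
      rw [← sub_eq_zero (b := (-1) * w ^ 2), e, mul_eq_zero]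
      exact ⟨Or.inr, fun h => h.resolve_left n5⟩)
  · have e : nr7 6 p = jn 3 p := by simp [nr7]
    rw [e, ← card_jn h7 d3 3 (by push_cast; ring)]
    refine Pool.Agent.Y515.Z8.card_quad (1 : ZMod p) 2 3 w one_ne_zero hw
      (fun x => Fr x (w + 2 * x) 6 = 0) (by
      intro x
      rw [div_pow, div_eq_iff (pow_ne_zero 2 hw)]
      have e : (1 * x + 2 * w) ^ 2 - 3 * w ^ 2 = Fr x (w + 2 * x) 6 := by
        simp only [Fr]
        simp
        ring
      rw [← sub_eq_zero (b := 3 * w ^ 2), e])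

lemma card7 {p : ℕ} (hp : p.Prime) (h7 : 7 < p) {w : ℤ} (N : ℤ) (hw : ¬ (p : ℤ) ∣ w)
    (j : Fin 7) (hty : ty7 j p ≠ none) :
    ((range p).filter (fun n : ℕ => (p : ℤ) ∣
      F7 ((n : ℤ) - N) (w + 2 * ((n : ℤ) - N)) j)).card = nr7 j p := by
  haveI : Fact p.Prime := ⟨hp⟩
  have hw' : (w : ZMod p) ≠ 0 := by rwa [Ne, ZMod.intCast_zmod_eq_zero_iff_dvd]
  rw [← card_root7 h7 hw' j hty]
  refine Pool.Agent.Y515.Z8.card_range N (fun x => Fr x ((w : ZMod p) + 2 * x) j = 0) _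
    (fun n => ?_)
  rw [dvd_F7]
  push_cast
  rfl

lemma sz7 {X : ℕ} {a b : ℤ} (ha : a.natAbs ≤ X) (hb : b.natAbs ≤ X) (hX : 1 ≤ X)
    (j : Fin 7) : (F7 a b j).natAbs ≤ 7 * X ^ 2 := by
  have hX' : (1 : ℤ) ≤ X := by exact_mod_cast hX
  have ha' : |a| ≤ X := by
    rw [Int.abs_eq_natAbs]
    exact_mod_cast ha
  have hb' : |b| ≤ X := by
    rw [Int.abs_eq_natAbs]
    exact_mod_cast hb
  obtain ⟨a1, a2⟩ := abs_le.1 ha'
  obtain ⟨b1, b2⟩ := abs_le.1 hb'
  have hXX : (X : ℤ) ≤ X ^ 2 := by nlinarith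
  have haa : a ^ 2 ≤ X ^ 2 := by nlinarith
  have hbb : b ^ 2 ≤ X ^ 2 := by nlinarith
  have hsa := sq_nonneg a
  have hsb := sq_nonneg b
  have key : ∀ x : ℤ, |x| ≤ 7 * (X : ℤ) ^ 2 → x.natAbs ≤ 7 * X ^ 2 := by
    intro x hx
    rw [Int.abs_eq_natAbs] at hx
    exact_mod_cast hx
  apply key
  fin_cases j
  · show |a| ≤ _
    rw [abs_le]
    constructor <;> linarith
  · show |b| ≤ _
    rw [abs_le]
    constructor <;> linarith
  · show |b - a| ≤ _
    rw [abs_le]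
    constructor <;> linarith
  · show |b + a| ≤ _
    rw [abs_le]
    constructor <;> linarith
  · show |b ^ 2 + 3 * a ^ 2| ≤ _
    rw [abs_le]
    constructor <;> linarith
  · show |b ^ 2 + a ^ 2| ≤ _
    rw [abs_le]
    constructor <;> linarith
  · show |b ^ 2 - 3 * a ^ 2| ≤ _
    rw [abs_le]
    constructor <;> linarith

end Pool.Agent.R421.Z12
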