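import Pool.Agent.R421.Z8.Par
import Pool.Agent.R421.Z12.Fam

/-!
# Project Z12: the parameters of the curves with a point of order twelve
-/

set_option autoImplicit false
set_option linter.all false

namespace Pool.Agent.R421.Z12

open WeierstrassCurve.Affine Pool.Agent.W262.RK Pool.Agent.W307.RT Pool.Agent.R421.HF
open Pool.Agent.W605.RT (sh_eq sh_negY two_tors int_root int_sqrt root_sq)
open Pool.Agent.R421.Z8 (dbl)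

/-- the relation between a curve and its parameters -/
def Rel12 (c mn : ℤ × ℤ) : Prop := ∃ s t e : ℤ, Rel4 c.1 c.2 s t e ∧
  IsCoprime mn.1 mn.2 ∧ (∀ j, F7 mn.1 mn.2 j ≠ 0) ∧
  s ^ 2 * ((mn.2 ^ 2 - mn.1 ^ 2) ^ 3 * (mn.2 ^ 2 + 3 * mn.1 ^ 2)) =
    4 * t * (4 * mn.1 ^ 3 * mn.2) ^ 2

theorem core12 {A B : ℤ} (hD : 4 * A ^ 3 + 27 * B ^ 2 ≠ 0)
    (hT : ∃ P : (Sh A B).toAffine.Point, addOrderOf P = 12) : ∃ mn, Rel12 (A, B) mn := by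
  obtain ⟨P, hP⟩ := hT
  have h6 : addOrderOf (3 • P + 3 • P) = 2 := by
    have h : 3 • P + 3 • P = 6 • P := by
      rw [← add_nsmul]
    rw [h, addOrderOf_nsmul' P (by norm_num : (6 : ℕ) ≠ 0), hP]
    norm_num
  have h3 : addOrderOf (4 • P) = 3 := by
    rw [addOrderOf_nsmul' P four_ne_zero, hP]
    norm_num
  obtain ⟨e, he, hPP⟩ := two_tors h6
  have r1 := sh_eq.mp he.1
  obtain ⟨x, y, h, hxy, hy0, hE, hX⟩ := dbl hPP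
  have r1' : e ^ 3 + A * e + B = 0 := by linarith
  obtain ⟨s, t, E, hR, hEe, hx, hy⟩ := four_of hD hy0 hE r1' hX
  -- the point of order 3
  obtain ⟨R, hRd⟩ : ∃ R, R = 4 • P := ⟨_, rfl⟩
  rw [← hRd] at h3
  have hR3 : R + R = -R := by
    have h5 := addOrderOf_nsmul_eq_zero R
    rw [h3] at h5
    have h7 : (3 : ℕ) • R = R + R + R := by
      rw [show (3 : ℕ) = 2 + 1 from rfl, add_nsmul, two_nsmul, one_nsmul]
    rw [h7] at h5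
    exact eq_neg_of_add_eq_zero_left h5
  obtain ⟨x3, y3, hx3, hy3, hE3, hX3⟩ : ∃ x3 y3 : ℚ, y3 ≠ 0 ∧ y3 ≠ 0 ∧
      y3 ^ 2 = x3 ^ 3 + A * x3 + B ∧ x3 = ((3 * x3 ^ 2 + A) / (2 * y3)) ^ 2 - 2 * x3 := by
    rcases R with _ | ⟨x3, y3, hxy3⟩
    · exfalso
      have : addOrderOf (Point.zero : (Sh A B).toAffine.Point) = 1 := addOrderOf_zero
      rw [this] at h3
      norm_num at h3
    · rw [Point.neg_some] at hR3
      obtain ⟨x', y', h', e1, e2, e3, e4⟩ := dbl hR3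
      obtain ⟨f1, f2⟩ := Point.some.inj e1
      subst f1
      subst f2
      exact ⟨x3, y3, e2, e2, e3, e4⟩
  have hAq : (A : ℚ) = t ^ 2 - 3 * e ^ 2 := by
    rw [← hEe]
    exact_mod_cast hR.hA
  have hBq : (B : ℚ) = 2 * e ^ 3 - t ^ 2 * e := by
    rw [← hEe]
    exact_mod_cast hR.hB
  have heq : 3 * e = (s : ℚ) ^ 2 - 2 * t := by
    rw [← hEe]
    exact_mod_cast hR.he
  have hs0 : (s : ℚ) ≠ 0 := by exact_mod_cast hR.hs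
  have ht0 : (t : ℚ) ≠ 0 := by exact_mod_cast hR.ht
  obtain ⟨X, hXd⟩ : ∃ X : ℚ, X = x3 - e := ⟨_, rfl⟩
  have hx3' : x3 = X + e := by rw [hXd]; ring
  -- the 3-division polynomial
  have q1 : 12 * x3 * y3 ^ 2 = (3 * x3 ^ 2 + A) ^ 2 := by
    have a1 : 3 * x3 = ((3 * x3 ^ 2 + A) / (2 * y3)) ^ 2 := by linarith
    have h2y : (2 * y3) ^ 2 ≠ 0 := by positivity
    rw [div_pow, eq_div_iff h2y] at a1
    linear_combination a1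
  have q2 : 4 * (s : ℚ) ^ 2 * X ^ 3 = (t - X) ^ 3 * (t + 3 * X) := by
    rw [hE3, hAq, hBq, hx3'] at q1
    have a1 : (s : ℚ) ^ 2 = 3 * e + 2 * t := by rw [heq]; ring
    rw [a1]
    linear_combination q1
  have q3 : y3 ^ 2 = X * ((X - t) ^ 2 + s ^ 2 * X) := by
    have a1 : (s : ℚ) ^ 2 = 3 * e + 2 * t := by rw [heq]; ring
    rw [hE3, hAq, hBq, hx3', a1]
    ring
  have q4 : 4 * X * y3 ^ 2 = ((t - X) * (t + X)) ^ 2 := by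
    rw [q3]
    linear_combination q2
  have hX0 : X ≠ 0 := by
    intro h0
    rw [h0] at q2
    have : (t : ℚ) ^ 4 = 0 := by linear_combination -q2
    exact ht0 ((pow_eq_zero_iff four_ne_zero).1 this)
  have htX : (t : ℚ) - X ≠ 0 := by
    intro h0
    rw [h0] at q2
    have h5 : 4 * (s : ℚ) ^ 2 * X ^ 3 = 0 := by rw [q2]; ring
    have h6 : 4 * (s : ℚ) ^ 2 * X ^ 3 ≠ 0 :=
      mul_ne_zero (mul_ne_zero (by norm_num) (pow_ne_zero 2 hs0)) (pow_ne_zero 3 hX0)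
    exact h6 h5
  obtain ⟨r, hr⟩ : ∃ r : ℚ, r = (t - X) * (t + X) / (2 * y3) := ⟨_, rfl⟩
  have hr2 : r ^ 2 = X := by
    have h2y : (2 * y3) ^ 2 ≠ 0 := by positivity
    rw [hr, div_pow, div_eq_iff h2y, ← q4]
    ring
  have hr0 : r ≠ 0 := by
    rintro rfl
    apply hX0
    rw [← hr2]
    norm_num
  obtain ⟨l, hl⟩ : ∃ l : ℚ, l = 2 * s * X * r / (t - X) ^ 2 := ⟨_, rfl⟩
  have hl2 : l ^ 2 * (t - X) = t + 3 * X := by
    have h4 : (t - X) ^ 4 ≠ 0 := pow_ne_zero 4 htX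
    have a1 : l ^ 2 * (t - X) ^ 4 = 4 * s ^ 2 * X ^ 3 := by
      have : l ^ 2 * (t - X) ^ 4 = (2 * s * X * r) ^ 2 := by
        rw [hl]
        field_simp
      rw [this]
      linear_combination (4 * (s : ℚ) ^ 2 * X ^ 2) * hr2
    rw [q2] at a1
    have a2 : (t - X) ^ 3 * (l ^ 2 * (t - X)) = (t - X) ^ 3 * (t + 3 * X) := by
      linear_combination a1
    exact mul_left_cancel₀ (pow_ne_zero 3 htX) a2
  have hl0 : l ≠ 0 := by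
    rw [hl]
    exact div_ne_zero (mul_ne_zero (mul_ne_zero (mul_ne_zero two_ne_zero hs0) hX0) hr0)
      (pow_ne_zero 2 htX)
  -- the parameters
  obtain ⟨n, hn⟩ : ∃ n : ℤ, n = l.num := ⟨_, rfl⟩
  obtain ⟨m, hm⟩ : ∃ m : ℤ, m = (l.den : ℤ) := ⟨_, rfl⟩
  have hm0 : m ≠ 0 := by
    rw [hm]
    exact_mod_cast l.den_nz
  have hn0 : n ≠ 0 := by
    rw [hn]
    exact Rat.num_ne_zero.2 hl0
  have hmq : (m : ℚ) ≠ 0 := by exact_mod_cast hm0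
  have hlmn : l = n / m := by
    rw [hn, hm]
    exact_mod_cast (Rat.num_div_den l).symm
  have hco : IsCoprime m n := by
    rw [hn, hm, Int.isCoprime_iff_gcd_eq_one, Int.gcd_comm]
    have := l.reduced
    exact this
  -- the relations
  have e1 : (n : ℚ) ^ 2 * (t - X) = m ^ 2 * (t + 3 * X) := by
    rw [hlmn, div_pow] at hl2
    field_simp at hl2
    linear_combination hl2
  have e2 : X * ((n : ℚ) ^ 2 + 3 * m ^ 2) = t * (n ^ 2 - m ^ 2) := by linear_combination -e1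
  have hc0 : ((n : ℚ) ^ 2 + 3 * m ^ 2) ≠ 0 := by positivity
  have hXe : X = t * (n ^ 2 - m ^ 2) / ((n : ℚ) ^ 2 + 3 * m ^ 2) := by
    rw [eq_div_iff hc0]
    exact e2
  have hd0 : (n : ℚ) ^ 2 - m ^ 2 ≠ 0 := by
    intro h0
    apply hX0
    rw [hXe, h0]
    simp
  have e3 : (s : ℚ) ^ 2 * ((n ^ 2 - m ^ 2) ^ 3 * (n ^ 2 + 3 * m ^ 2)) =
      4 * t * (4 * m ^ 3 * n) ^ 2 := by
    have b1 : (t : ℚ) - X = 4 * m ^ 2 * t / ((n : ℚ) ^ 2 + 3 * m ^ 2) := by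
      rw [hXe]
      field_simp
      ring
    have b2 : (t : ℚ) + 3 * X = 4 * n ^ 2 * t / ((n : ℚ) ^ 2 + 3 * m ^ 2) := by
      rw [hXe]
      field_simp
      ring
    rw [b1, b2, hXe] at q2
    obtain ⟨c, hc⟩ : ∃ c : ℚ, c = (n : ℚ) ^ 2 + 3 * m ^ 2 := ⟨_, rfl⟩
    obtain ⟨d, hd⟩ : ∃ d : ℚ, d = (n : ℚ) ^ 2 - m ^ 2 := ⟨_, rfl⟩
    rw [← hc, ← hd] at q2 ⊢
    rw [← hc] at hc0
    have b3 : 4 * (s : ℚ) ^ 2 * (t * d / c) ^ 3 * c ^ 4 =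
        (4 * m ^ 2 * t / c) ^ 3 * (4 * n ^ 2 * t / c) * c ^ 4 := by rw [q2]
    have b4 : 4 * (s : ℚ) ^ 2 * (t * d / c) ^ 3 * c ^ 4 = (4 * t ^ 3) * ((s : ℚ) ^ 2 * (d ^ 3 * c)) := by
      field_simp
    have b5 : (4 * (m : ℚ) ^ 2 * t / c) ^ 3 * (4 * n ^ 2 * t / c) * c ^ 4 =
        (4 * t ^ 3) * (4 * t * (4 * m ^ 3 * n) ^ 2) := by
      field_simp
      try ring
    rw [b4, b5] at b3
    exact mul_left_cancel₀ (mul_ne_zero four_ne_zero (pow_ne_zero 3 ht0)) b3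
  have e3' : s ^ 2 * ((n ^ 2 - m ^ 2) ^ 3 * (n ^ 2 + 3 * m ^ 2)) = 4 * t * (4 * m ^ 3 * n) ^ 2 := by
    exact_mod_cast e3
  have hd0' : n ^ 2 - m ^ 2 ≠ 0 := by exact_mod_cast hd0
  refine ⟨(m, n), s, t, E, hR, hco, ?_, e3'⟩
  have f2 : n - m ≠ 0 := by
    intro h0
    apply hd0'
    have : n ^ 2 - m ^ 2 = (n - m) * (n + m) := by ring
    rw [this, h0, zero_mul]
  have f3 : n + m ≠ 0 := by
    intro h0
    apply hd0'
    have : n ^ 2 - m ^ 2 = (n - m) * (n + m) := by ring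
    rw [this, h0, mul_zero]
  have f4 : n ^ 2 + 3 * m ^ 2 ≠ 0 := by positivity
  have f5 : n ^ 2 + m ^ 2 ≠ 0 := by positivity
  have f6 : n ^ 2 - 3 * m ^ 2 ≠ 0 := by
    intro h0
    apply hR.hd
    have h5 : n ^ 2 = 3 * m ^ 2 := by linarith
    have hM0 : (4 * m ^ 3 * n) ^ 2 ≠ 0 :=
      pow_ne_zero 2 (mul_ne_zero (mul_ne_zero four_ne_zero (pow_ne_zero 3 hm0)) hn0)
    have h6 : (n ^ 2 - m ^ 2) ^ 3 * (n ^ 2 + 3 * m ^ 2) = (4 * m ^ 3 * n) ^ 2 := by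
      have : (4 * m ^ 3 * n) ^ 2 = 16 * m ^ 6 * n ^ 2 := by ring
      rw [this, h5]
      ring
    rw [h6] at e3'
    have h7 := mul_right_cancel₀ hM0 e3'
    linarith
  intro j
  rcases fin7 j with rfl | rfl | rfl | rfl | rfl | rfl | rfl
  · exact hm0
  · exact hn0
  · exact f2
  · exact f3
  · exact f4
  · exact f5
  · exact f6

open Classical in
/-- the parameters -/
noncomputable def F12p (c : ℤ × ℤ) : ℤ × ℤ := if h : ∃ ab, Rel12 c ab then h.choose else (0, 0)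

theorem F12p_rel {c : ℤ × ℤ} (h : ∃ ab, Rel12 c ab) : Rel12 c (F12p c) := by
  unfold F12p
  rw [dif_pos h]
  exact h.choose_spec

lemma MN_ne {m n : ℤ} (h : ∀ j, F7 m n j ≠ 0) :
    (4 * m ^ 3 * n) ^ 2 ≠ 0 ∧ (n ^ 2 - m ^ 2) ^ 3 * (n ^ 2 + 3 * m ^ 2) ≠ 0 := by
  have h0 : m ≠ 0 := h 0
  have h1 : n ≠ 0 := h 1
  have h2 : n - m ≠ 0 := h 2
  have h3 : n + m ≠ 0 := h 3
  have h4 : n ^ 2 + 3 * m ^ 2 ≠ 0 := h 4
  refine ⟨pow_ne_zero 2 (mul_ne_zero (mul_ne_zero four_ne_zero (pow_ne_zero 3 h0)) h1), ?_⟩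
  have : n ^ 2 - m ^ 2 = (n - m) * (n + m) := by ring
  rw [this]
  exact mul_ne_zero (pow_ne_zero 3 (mul_ne_zero h2 h3)) h4

theorem rel12_unique {c c' mn : ℤ × ℤ} (h : Rel12 c mn) (h' : Rel12 c' mn)
    (hmin : ∀ p : ℕ, p.Prime → ¬ ((p : ℤ) ^ 4 ∣ c.1 ∧ (p : ℤ) ^ 6 ∣ c.2))
    (hmin' : ∀ p : ℕ, p.Prime → ¬ ((p : ℤ) ^ 4 ∣ c'.1 ∧ (p : ℤ) ^ 6 ∣ c'.2)) : c = c' := by
  obtain ⟨s, t, e, hR, -, hF, h2⟩ := h
  obtain ⟨s', t', e', hR', -, -, h2'⟩ := h'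
  obtain ⟨hM, hN⟩ := MN_ne hF
  have e2 : s' ^ 2 * t = s ^ 2 * t' := by
    obtain ⟨M, hMd⟩ : ∃ M, M = (4 * mn.1 ^ 3 * mn.2) ^ 2 := ⟨_, rfl⟩
    obtain ⟨N, hNd⟩ : ∃ N, N = (mn.2 ^ 2 - mn.1 ^ 2) ^ 3 * (mn.2 ^ 2 + 3 * mn.1 ^ 2) := ⟨_, rfl⟩
    rw [← hMd] at hM h2 h2'
    rw [← hNd] at hN h2 h2'
    have h5 : (4 * M * N) * (s' ^ 2 * t) = (4 * M * N) * (s ^ 2 * t') := by
      calc (4 * M * N) * (s' ^ 2 * t) = (s' ^ 2 * N) * (4 * t * M) := by ring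
        _ = (4 * t' * M) * (s ^ 2 * N) := by rw [h2, h2']
        _ = _ := by ring
    exact mul_left_cancel₀ (mul_ne_zero (mul_ne_zero four_ne_zero hM) hN) h5
  have h3 := hR.unique hR' hR.hs hR'.hs (by ring) e2 hmin hmin'
  exact Prod.ext h3.1 h3.2

/-- the greatest common divisor of `M` and `N` -/
theorem gcd_MN {m n g : ℤ} (hco : IsCoprime m n) (h1 : g ∣ (4 * m ^ 3 * n) ^ 2)
    (h2 : g ∣ (n ^ 2 - m ^ 2) ^ 3 * (n ^ 2 + 3 * m ^ 2)) : g ∣ 48 := by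
  have hcN : IsCoprime ((n ^ 2 - m ^ 2) ^ 3 * (n ^ 2 + 3 * m ^ 2)) m := by
    have : (n ^ 2 - m ^ 2) ^ 3 * (n ^ 2 + 3 * m ^ 2) =
        n ^ 8 + m * (-6 * m ^ 3 * n ^ 4 + 8 * m ^ 5 * n ^ 2 - 3 * m ^ 7) := by ring
    rw [this]
    exact (hco.symm.pow_left (m := 8)).add_mul_left_left _
  have hgm : IsCoprime g m := hcN.of_isCoprime_of_dvd_left h2
  have h3 : g ∣ 16 * n ^ 2 := by
    have : (4 * m ^ 3 * n) ^ 2 = m ^ 6 * (16 * n ^ 2) := by ring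
    rw [this] at h1
    exact (hgm.pow_right (n := 6)).dvd_of_dvd_mul_left h1
  have h4 : g ∣ 48 * m ^ 8 := by
    have : 48 * m ^ 8 = (16 * n ^ 2) * (n ^ 6 - 6 * m ^ 4 * n ^ 2 + 8 * m ^ 6) -
        16 * ((n ^ 2 - m ^ 2) ^ 3 * (n ^ 2 + 3 * m ^ 2)) := by ring
    rw [this]
    exact dvd_sub (h3.mul_right _) (h2.mul_left _)
  exact (hgm.pow_right (n := 8)).dvd_of_dvd_mul_right h4

/-- the size of the parameters -/
theorem size_MN {x y R : ℤ} (hx : 0 ≤ x) (hy : 0 ≤ y) (hM : 16 * x ^ 3 * y ≤ R)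
    (hN : |(y - x) ^ 3 * (y + 3 * x)| ≤ R) : (x + y) ^ 4 ≤ 16 * R := by
  have hMN : |(3 * x - y) * (x + y) ^ 3| ≤ 2 * R := by
    have : (3 * x - y) * (x + y) ^ 3 = 16 * x ^ 3 * y - (y - x) ^ 3 * (y + 3 * x) := by ring
    rw [this]
    obtain ⟨h1, h2⟩ := abs_le.1 hN
    have h3 : 0 ≤ 16 * x ^ 3 * y := by positivity
    rw [abs_le]
    constructor <;> linarith
  have hz : 0 ≤ x + y := by linarith
  have hR : 0 ≤ R := (abs_nonneg _).trans hN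
  rw [abs_mul, abs_of_nonneg (pow_nonneg hz 3)] at hMN
  by_cases hc : x + y ≤ 4 * |3 * x - y|
  · have h1 : (x + y) ^ 4 ≤ 4 * (|3 * x - y| * (x + y) ^ 3) := by
      calc (x + y) ^ 4 = (x + y) * (x + y) ^ 3 := by ring
        _ ≤ (4 * |3 * x - y|) * (x + y) ^ 3 := mul_le_mul_of_nonneg_right hc (pow_nonneg hz 3)
        _ = _ := by ring
    linarith
  · push Not at hc
    obtain ⟨h1, h2⟩ : -(x + y) < 4 * (3 * x - y) ∧ 4 * (3 * x - y) < x + y := by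
      have h3 := le_abs_self (3 * x - y)
      have h4 := neg_abs_le (3 * x - y)
      constructor <;> linarith
    have h3 : 3 * (x + y) ≤ 16 * x := by linarith
    have h4 : 11 * (x + y) ≤ 16 * y := by linarith
    have h5 : (3 * (x + y)) ^ 3 ≤ (16 * x) ^ 3 := pow_le_pow_left₀ (by linarith) h3 3
    have h6 : (3 * (x + y)) ^ 3 * (11 * (x + y)) ≤ (16 * x) ^ 3 * (16 * y) :=
      mul_le_mul h5 h4 (by linarith) (by positivity)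
    have h7 : (3 * (x + y)) ^ 3 * (11 * (x + y)) = 297 * (x + y) ^ 4 := by ring
    have h8 : (16 * x) ^ 3 * (16 * y) = 4096 * (16 * x ^ 3 * y) := by ring
    rw [h7, h8] at h6
    have h9 : 0 ≤ (x + y) ^ 4 := by positivity
    linarith

theorem rel12_bound {A B : ℤ} {mn : ℤ × ℤ} (h : Rel12 (A, B) mn) {H : ℕ} (hH : 4 * |A| ^ 3 ≤ H)
    (hH' : 27 * B ^ 2 ≤ H) :
    mn.1.natAbs ^ 48 ≤ 10 ^ 26 * H ∧ mn.2.natAbs ^ 48 ≤ 10 ^ 26 * H := by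
  obtain ⟨s, t, e, hR, hco, hF, h2⟩ := h
  obtain ⟨m, n⟩ := mn
  obtain ⟨hM, hN⟩ := MN_ne hF
  change (4 * m ^ 3 * n) ^ 2 ≠ 0 at hM
  change (n ^ 2 - m ^ 2) ^ 3 * (n ^ 2 + 3 * m ^ 2) ≠ 0 at hN
  change IsCoprime m n at hco
  change s ^ 2 * ((n ^ 2 - m ^ 2) ^ 3 * (n ^ 2 + 3 * m ^ 2)) = 4 * t * (4 * m ^ 3 * n) ^ 2 at h2
  obtain ⟨-, ht, hs⟩ := hR.bound hH hH'
  obtain ⟨M, hMd⟩ : ∃ M, M = (4 * m ^ 3 * n) ^ 2 := ⟨_, rfl⟩
  obtain ⟨N, hNd⟩ : ∃ N, N = (n ^ 2 - m ^ 2) ^ 3 * (n ^ 2 + 3 * m ^ 2) := ⟨_, rfl⟩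
  rw [← hMd] at hM h2
  rw [← hNd] at hN h2
  have hg0 : 0 < Int.gcd M N := Int.gcd_pos_of_ne_zero_left _ hM
  obtain ⟨M1, N1, hMN1, hM1, hN1⟩ := Int.exists_gcd_one hg0
  set g : ℤ := (Int.gcd M N : ℤ) with hg
  have hgpos : 0 < g := by rw [hg]; exact_mod_cast hg0
  have hg48 : g ≤ 48 := by
    apply Int.le_of_dvd (by norm_num)
    apply gcd_MN hco
    · rw [← hMd]
      exact Int.gcd_dvd_left M N
    · rw [← hNd]
      exact Int.gcd_dvd_right M N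
  have h3 : s ^ 2 * N1 = 4 * t * M1 := by
    have : g * (s ^ 2 * N1) = g * (4 * t * M1) := by
      calc g * (s ^ 2 * N1) = s ^ 2 * (N1 * g) := by ring
        _ = 4 * t * (M1 * g) := by rw [← hN1, ← hM1]; exact h2
        _ = _ := by ring
    exact mul_left_cancel₀ hgpos.ne' this
  have hcop : IsCoprime M1 N1 := Int.isCoprime_iff_gcd_eq_one.mpr hMN1
  have d1 : M1 ∣ s ^ 2 := by
    have : M1 ∣ s ^ 2 * N1 := ⟨4 * t, by rw [h3]; ring⟩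
    exact hcop.dvd_of_dvd_mul_right this
  have d2 : N1 ∣ 4 * t := by
    have : N1 ∣ 4 * t * M1 := ⟨s ^ 2, by rw [← h3]; ring⟩
    exact hcop.symm.dvd_of_dvd_mul_right this
  have b1 : |M| ≤ 48 * s ^ 2 := by
    have h5 : |M1| ≤ s ^ 2 := by
      have := Int.le_of_dvd (by have := hR.hs; positivity) ((abs_dvd _ _).2 d1)
      exact this
    calc |M| = |M1| * g := by rw [hM1, abs_mul, abs_of_pos hgpos]
      _ ≤ s ^ 2 * 48 := mul_le_mul h5 hg48 hgpos.le (sq_nonneg s)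
      _ = _ := by ring
  have b2 : |N| ≤ 192 * |t| := by
    have h5 : |N1| ≤ 4 * |t| := by
      have h6 : |N1| ∣ |4 * t| := (abs_dvd_abs _ _).2 d2
      have h7 : 0 < |4 * t| := abs_pos.2 (mul_ne_zero four_ne_zero hR.ht)
      have h8 := Int.le_of_dvd h7 h6
      rwa [abs_mul, abs_of_pos (by norm_num : (0 : ℤ) < 4)] at h8
    calc |N| = |N1| * g := by rw [hN1, abs_mul, abs_of_pos hgpos]
      _ ≤ (4 * |t|) * 48 := mul_le_mul h5 hg48 hgpos.le (by positivity)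
      _ = _ := by ring
  have hR0 : (m ^ 2 + n ^ 2) ^ 4 ≤ 16 * (48 * s ^ 2 + 192 * |t|) := by
    apply size_MN (sq_nonneg m) (sq_nonneg n)
    · have : 16 * (m ^ 2) ^ 3 * n ^ 2 = M := by rw [hMd]; ring
      rw [this]
      have := le_abs_self M
      have := abs_nonneg t
      linarith
    · rw [← hNd]
      have := sq_nonneg s
      linarith
  have sq2 : ∀ x y : ℤ, (x + y) ^ 2 ≤ 2 * (x ^ 2 + y ^ 2) := by
    intro x y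
    nlinarith [sq_nonneg (x - y)]
  have cube : ∀ x y : ℤ, 0 ≤ x → 0 ≤ y → (x + y) ^ 3 ≤ 4 * (x ^ 3 + y ^ 3) := by
    intro x y hx hy
    nlinarith [mul_nonneg (add_nonneg hx hy) (sq_nonneg (x - y))]
  have h6 : ∀ x y : ℤ, 0 ≤ x → 0 ≤ y → (x + y) ^ 6 ≤ 32 * (x ^ 6 + y ^ 6) := by
    intro x y hx hy
    have a2 : ((x + y) ^ 2) ^ 3 ≤ (2 * (x ^ 2 + y ^ 2)) ^ 3 :=
      pow_le_pow_left₀ (sq_nonneg _) (sq2 x y) 3
    have a3 := cube (x ^ 2) (y ^ 2) (sq_nonneg _) (sq_nonneg _)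
    calc (x + y) ^ 6 = ((x + y) ^ 2) ^ 3 := by ring
      _ ≤ (2 * (x ^ 2 + y ^ 2)) ^ 3 := a2
      _ = 8 * (x ^ 2 + y ^ 2) ^ 3 := by ring
      _ ≤ 8 * (4 * ((x ^ 2) ^ 3 + (y ^ 2) ^ 3)) := by linarith
      _ = _ := by ring
  have hH0 : (0 : ℤ) ≤ H := Int.natCast_nonneg H
  have h7 : (m ^ 2 + n ^ 2) ^ 24 ≤ 10 ^ 26 * H := by
    have a1 : ((m ^ 2 + n ^ 2) ^ 4) ^ 6 ≤ (16 * (48 * s ^ 2 + 192 * |t|)) ^ 6 :=
      pow_le_pow_left₀ (by positivity) hR0 6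
    have a2 := h6 (48 * s ^ 2) (192 * |t|) (by positivity) (by positivity)
    have a3 : |t| ^ 6 = t ^ 6 := Even.pow_abs (by decide) t
    calc (m ^ 2 + n ^ 2) ^ 24 = ((m ^ 2 + n ^ 2) ^ 4) ^ 6 := by ring
      _ ≤ (16 * (48 * s ^ 2 + 192 * |t|)) ^ 6 := a1
      _ = 16777216 * (48 * s ^ 2 + 192 * |t|) ^ 6 := by ring
      _ ≤ 16777216 * (32 * ((48 * s ^ 2) ^ 6 + (192 * |t|) ^ 6)) := by linarith
      _ = 16777216 * 32 * 48 ^ 6 * s ^ 12 + 16777216 * 32 * 192 ^ 6 * |t| ^ 6 := by ring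
      _ = 16777216 * 32 * 48 ^ 6 * s ^ 12 + 16777216 * 32 * 192 ^ 6 * t ^ 6 := by rw [a3]
      _ ≤ 16777216 * 32 * 48 ^ 6 * (2000000 * H) + 16777216 * 32 * 192 ^ 6 * (868 * H) := by
        linarith
      _ ≤ _ := by norm_num; linarith
  have key : ∀ x : ℤ, x ^ 2 ≤ m ^ 2 + n ^ 2 → x.natAbs ^ 48 ≤ 10 ^ 26 * H := by
    intro x hx
    have e1 : (x ^ 2) ^ 24 ≤ (m ^ 2 + n ^ 2) ^ 24 := pow_le_pow_left₀ (sq_nonneg x) hx 24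
    have e2 : ((x.natAbs ^ 48 : ℕ) : ℤ) = (x ^ 2) ^ 24 := by
      push_cast
      rw [← pow_mul]
      exact Even.pow_abs (by decide) x
    have h4 : ((x.natAbs ^ 48 : ℕ) : ℤ) ≤ ((10 ^ 26 * H : ℕ) : ℤ) := by
      rw [e2]
      push_cast
      exact e1.trans h7
    exact_mod_cast h4
  have := sq_nonneg m
  have := sq_nonneg n
  exact ⟨key m (by linarith), key n (by linarith)⟩

/-- the ranks -/
theorem rel12_rank {A B : ℤ} {mn : ℤ × ℤ} (h : Rel12 (A, B) mn) :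
    Module.finrank ℤ (Sh A B).toAffine.Point ≤
      Module.finrank ℤ (EAB (-(4 * mn.1 ^ 3 * mn.2) ^ 2)
        (-((mn.2 ^ 2 - mn.1 ^ 2) ^ 3 * (mn.2 ^ 2 + 3 * mn.1 ^ 2)))).toAffine.Point := by
  obtain ⟨s, t, e, hR, -, hF, h2⟩ := h
  obtain ⟨m, n⟩ := mn
  obtain ⟨hM, hN⟩ := MN_ne hF
  change (4 * m ^ 3 * n) ^ 2 ≠ 0 at hM
  change (n ^ 2 - m ^ 2) ^ 3 * (n ^ 2 + 3 * m ^ 2) ≠ 0 at hN
  change s ^ 2 * ((n ^ 2 - m ^ 2) ^ 3 * (n ^ 2 + 3 * m ^ 2)) = 4 * t * (4 * m ^ 3 * n) ^ 2 at h2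
  change Module.finrank ℤ (Sh A B).toAffine.Point ≤
      Module.finrank ℤ (EAB (-(4 * m ^ 3 * n) ^ 2)
        (-((n ^ 2 - m ^ 2) ^ 3 * (n ^ 2 + 3 * m ^ 2)))).toAffine.Point
  refine hR.rk.trans (le_of_eq ?_)
  obtain ⟨N, hNd⟩ : ∃ N, N = (n ^ 2 - m ^ 2) ^ 3 * (n ^ 2 + 3 * m ^ 2) := ⟨_, rfl⟩
  obtain ⟨q, hq⟩ : ∃ q, q = 4 * m ^ 3 * n := ⟨_, rfl⟩
  rw [← hNd, ← hq] at h2 ⊢
  rw [← hq] at hM
  have hq0 : q ≠ 0 := fun h => hM (by rw [h]; norm_num)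
  have hqq : (q : ℚ) ≠ 0 := by exact_mod_cast hq0
  have hs : (s : ℚ) ≠ 0 := by exact_mod_cast hR.hs
  obtain ⟨k, hk⟩ : ∃ k : ℚ, k = s / q := ⟨_, rfl⟩
  have hk0 : k ≠ 0 := by rw [hk]; exact div_ne_zero hs hqq
  have hsk : (s : ℚ) = k * q := by rw [hk]; field_simp
  have htk : (t : ℚ) = k ^ 2 * N / 4 := by
    have h3 : (s : ℚ) ^ 2 * N = 4 * t * q ^ 2 := by exact_mod_cast h2
    rw [hsk] at h3
    have h4 : (q : ℚ) ^ 2 ≠ 0 := pow_ne_zero 2 hqq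
    have h5 : (q : ℚ) ^ 2 * (k ^ 2 * N) = q ^ 2 * (4 * t) := by linear_combination h3
    have h6 := mul_left_cancel₀ h4 h5
    linarith
  obtain ⟨φ⟩ := Pool.Agent.W261.RT.iso (-((s : ℚ) ^ 2 + (s ^ 2 - 4 * t)))
    ((s : ℚ) ^ 2 * (s ^ 2 - 4 * t)) 0 ((s : ℚ) ^ 2) k hk0
  have hW : (⟨0, (-((s : ℚ) ^ 2 + (s ^ 2 - 4 * t)) + 3 * (s : ℚ) ^ 2) / (k : ℚ) ^ 2, 0,
      ((s : ℚ) ^ 2 * (s ^ 2 - 4 * t) + 2 * (s : ℚ) ^ 2 * (-((s : ℚ) ^ 2 + (s ^ 2 - 4 * t))) +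
        3 * ((s : ℚ) ^ 2) ^ 2) / (k : ℚ) ^ 4,
      (0 + (s : ℚ) ^ 2 * ((s : ℚ) ^ 2 * (s ^ 2 - 4 * t)) +
        ((s : ℚ) ^ 2) ^ 2 * (-((s : ℚ) ^ 2 + (s ^ 2 - 4 * t))) + ((s : ℚ) ^ 2) ^ 3) / (k : ℚ) ^ 6⟩ :
        WeierstrassCurve ℚ) = EAB (-q ^ 2) (-N) := by
    unfold EAB
    simp only [WeierstrassCurve.mk.injEq, true_and]
    refine ⟨?_, ?_, ?_⟩
    · rw [htk, hsk]; push_cast; field_simp; ring
    · rw [htk, hsk]; push_cast; field_simp; ring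
    · rw [htk, hsk]; field_simp; ring
  rw [hW] at φ
  have hW0 : EAB (s ^ 2) (s ^ 2 - 4 * t) = (⟨0, -((s : ℚ) ^ 2 + (s ^ 2 - 4 * t)), 0,
      (s : ℚ) ^ 2 * (s ^ 2 - 4 * t), 0⟩ : WeierstrassCurve ℚ) := by
    unfold EAB
    push_cast
    rfl
  rw [hW0]
  exact LinearEquiv.finrank_eq φ.toIntLinearEquiv

end Pool.Agent.R421.Z12
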